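import Mathlib

/-!
# Calculus on `ℝ³ × (a,b)` for functions that are `ℤ³`-periodic in space
-/

namespace H319NS

open MeasureTheory Set Filter Topology
open scoped ContDiff

/-- space-time -/
abbrev V := (Fin 3 → ℝ) × ℝ

/-- the time slab `ℝ³ × (a,b)` -/
def Slab (a b : ℝ) : Set V := {z | a < z.2 ∧ z.2 < b}

/-- unit vector in the `i`-th space direction -/
noncomputable def ex (i : Fin 3) : V := (Pi.single i 1, 0)

/-- unit vector in the time direction -/
def et : V := (0, 1)

/-- directional derivative -/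
noncomputable def pd (v : V) (f : V → ℝ) : V → ℝ := fun z => fderiv ℝ f z v

/-- `f` is smooth on the slab and `ℤ³`-periodic in space. -/
structure Good (a b : ℝ) (f : V → ℝ) : Prop where
  smooth : ContDiffOn ℝ ∞ f (Slab a b)
  per : ∀ (i : Fin 3) (z : V), f (z + ex i) = f z

variable {a b : ℝ}

lemma isOpen_slab : IsOpen (Slab a b) := by
  have h1 : IsOpen {z : V | a < z.2} := isOpen_lt continuous_const continuous_snd
  have h2 : IsOpen {z : V | z.2 < b} := isOpen_lt continuous_snd continuous_const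
  exact h1.inter h2

lemma Good.contDiffAt {f : V → ℝ} (hf : Good a b f) {z : V} (hz : z ∈ Slab a b) :
    ContDiffAt ℝ ∞ f z :=
  hf.smooth.contDiffAt (isOpen_slab.mem_nhds hz)

lemma Good.diff {f : V → ℝ} (hf : Good a b f) {z : V} (hz : z ∈ Slab a b) :
    DifferentiableAt ℝ f z :=
  (hf.contDiffAt hz).differentiableAt (by simp)

lemma Good.pd {f : V → ℝ} (hf : Good a b f) (v : V) : Good a b (pd v f) := by
  refine ⟨?_, ?_⟩
  · have h1 : ContDiffOn ℝ ∞ (fderiv ℝ f) (Slab a b) :=
      hf.smooth.fderiv_of_isOpen isOpen_slab (by simp)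
    exact h1.clm_apply contDiffOn_const
  · intro i z
    have h2 : (fun y => f (y + ex i)) = f := by
      funext y
      exact hf.per i y
    unfold H319NS.pd
    have h3 : fderiv ℝ (fun y => f (y + ex i)) z = fderiv ℝ f (z + ex i) := by
      rw [fderiv_comp_add_right]
    rw [← h3, h2]

lemma Good.add {f g : V → ℝ} (hf : Good a b f) (hg : Good a b g) :
    Good a b (fun z => f z + g z) :=
  ⟨hf.smooth.add hg.smooth, fun i z => by simp [hf.per i z, hg.per i z]⟩

lemma Good.sub {f g : V → ℝ} (hf : Good a b f) (hg : Good a b g) :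
    Good a b (fun z => f z - g z) :=
  ⟨hf.smooth.sub hg.smooth, fun i z => by simp [hf.per i z, hg.per i z]⟩

lemma Good.mul {f g : V → ℝ} (hf : Good a b f) (hg : Good a b g) :
    Good a b (fun z => f z * g z) :=
  ⟨hf.smooth.mul hg.smooth, fun i z => by simp [hf.per i z, hg.per i z]⟩

lemma Good.neg {f : V → ℝ} (hf : Good a b f) : Good a b (fun z => - f z) :=
  ⟨hf.smooth.neg, fun i z => by simp [hf.per i z]⟩

lemma Good.const (c : ℝ) : Good a b (fun _ => c) :=
  ⟨contDiffOn_const, fun _ _ => rfl⟩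

lemma Good.cmul {f : V → ℝ} (c : ℝ) (hf : Good a b f) : Good a b (fun z => c * f z) :=
  (Good.const c).mul hf

lemma Good.sum {f : Fin 3 → V → ℝ} (hf : ∀ i, Good a b (f i)) :
    Good a b (fun z => ∑ i, f i z) := by
  refine ⟨ContDiffOn.sum (fun i _ => (hf i).smooth), fun i z => ?_⟩
  exact Finset.sum_congr rfl (fun j _ => (hf j).per i z)

lemma pd_add {f g : V → ℝ} (hf : Good a b f) (hg : Good a b g) (v : V) {z : V}
    (hz : z ∈ Slab a b) : pd v (fun z => f z + g z) z = pd v f z + pd v g z := by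
  unfold pd
  rw [fderiv_fun_add (hf.diff hz) (hg.diff hz)]
  rfl

lemma pd_sub {f g : V → ℝ} (hf : Good a b f) (hg : Good a b g) (v : V) {z : V}
    (hz : z ∈ Slab a b) : pd v (fun z => f z - g z) z = pd v f z - pd v g z := by
  unfold pd
  rw [fderiv_fun_sub (hf.diff hz) (hg.diff hz)]
  rfl

lemma pd_mul {f g : V → ℝ} (hf : Good a b f) (hg : Good a b g) (v : V) {z : V}
    (hz : z ∈ Slab a b) : pd v (fun z => f z * g z) z = pd v f z * g z + f z * pd v g z := by
  unfold pd
  rw [fderiv_fun_mul (hf.diff hz) (hg.diff hz)]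
  simp
  ring

lemma pd_cmul {f : V → ℝ} (c : ℝ) (hf : Good a b f) (v : V) {z : V}
    (hz : z ∈ Slab a b) : pd v (fun z => c * f z) z = c * pd v f z := by
  unfold pd
  rw [fderiv_const_mul (hf.diff hz)]
  simp

lemma pd_neg (f : V → ℝ) (v : V) (z : V) : pd v (fun z => - f z) z = - pd v f z := by
  unfold pd
  rw [fderiv_fun_neg]
  simp

lemma pd_sum {f : Fin 3 → V → ℝ} (hf : ∀ i, Good a b (f i)) (v : V) {z : V}
    (hz : z ∈ Slab a b) : pd v (fun z => ∑ i, f i z) z = ∑ i, pd v (f i) z := by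
  unfold pd
  rw [fderiv_fun_sum (fun i _ => (hf i).diff hz)]
  simp

lemma pd_congr {f g : V → ℝ} (v : V) {z : V} (hz : z ∈ Slab a b)
    (h : ∀ y ∈ Slab a b, f y = g y) : pd v f z = pd v g z := by
  unfold pd
  have : f =ᶠ[𝓝 z] g := by
    filter_upwards [isOpen_slab.mem_nhds hz] with y hy using h y hy
  rw [this.fderiv_eq]

lemma pd_comm {f : V → ℝ} (hf : Good a b f) (v w : V) {z : V} (hz : z ∈ Slab a b) :
    pd v (pd w f) z = pd w (pd v f) z := by
  have hsymm : IsSymmSndFDerivAt ℝ f z :=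
    (hf.contDiffAt hz).isSymmSndFDerivAt (by
      simp only [minSmoothness_of_isRCLikeNormedField]
      exact WithTop.coe_le_coe.2 le_top)
  have hd : DifferentiableAt ℝ (fderiv ℝ f) z := by
    have h1 : ContDiffAt ℝ 1 (fderiv ℝ f) z :=
      (hf.contDiffAt hz).fderiv_right (by norm_cast)
    exact h1.differentiableAt (by norm_num)
  have key : ∀ v w : V, pd v (pd w f) z = fderiv ℝ (fderiv ℝ f) z v w := by
    intro v w
    unfold pd
    rw [fderiv_clm_apply hd (differentiableAt_const w)]
    simp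
  rw [key, key, hsymm.eq]

/-- the unit cube -/
def Q : Set (Fin 3 → ℝ) := Icc 0 1

lemma slice_contDiff {f : V → ℝ} (hf : Good a b f) {t : ℝ} (ht : t ∈ Ioo a b) :
    ContDiff ℝ ∞ (fun x : Fin 3 → ℝ => f (x, t)) := by
  rw [contDiff_iff_contDiffAt]
  intro x
  have h1 : ContDiffAt ℝ ∞ f (x, t) := hf.contDiffAt (z := (x, t)) ht
  have h2 : ContDiffAt ℝ ∞ (fun x : Fin 3 → ℝ => ((x, t) : V)) x :=
    (contDiff_id.prodMk contDiff_const).contDiffAt
  exact h1.comp x h2

lemma slice_cont {f : V → ℝ} (hf : Good a b f) {t : ℝ} (ht : t ∈ Ioo a b) :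
    Continuous (fun x : Fin 3 → ℝ => f (x, t)) := (slice_contDiff hf ht).continuous

lemma integrableOn_slice {f : V → ℝ} (hf : Good a b f) {t : ℝ} (ht : t ∈ Ioo a b) :
    IntegrableOn (fun x : Fin 3 → ℝ => f (x, t)) Q :=
  (slice_cont hf ht).continuousOn.integrableOn_compact isCompact_Icc

/-- integral over the unit cube at time `t` -/
noncomputable def In (f : V → ℝ) (t : ℝ) : ℝ := ∫ x in Q, f (x, t)

lemma fderiv_slice {f : V → ℝ} (hf : Good a b f) {t : ℝ} (ht : t ∈ Ioo a b) (x : Fin 3 → ℝ) :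
    HasFDerivAt (fun x : Fin 3 → ℝ => f (x, t))
      ((fderiv ℝ f (x, t)).comp (ContinuousLinearMap.inl ℝ (Fin 3 → ℝ) ℝ)) x := by
  have h1 : HasFDerivAt f (fderiv ℝ f (x, t)) (x, t) :=
    (hf.diff (z := (x, t)) ht).hasFDerivAt
  have h2 : HasFDerivAt (fun x : Fin 3 → ℝ => ((x, t) : V))
      (ContinuousLinearMap.inl ℝ (Fin 3 → ℝ) ℝ) x := by
    exact hasFDerivAt_prodMk_left x t
  exact h1.comp x h2

lemma In_pd_ex {f : V → ℝ} (hf : Good a b f) (i : Fin 3) {t : ℝ} (ht : t ∈ Ioo a b) :
    In (pd (ex i) f) t = 0 := by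
  have hdiv := integral_divergence_of_hasFDerivAt_off_countable' (n := 2) (E := ℝ)
    (0 : Fin 3 → ℝ) 1 (fun _ => zero_le_one)
    (fun j x => if j = i then f (x, t) else 0)
    (fun j x => if j = i then
      ((fderiv ℝ f (x, t)).comp (ContinuousLinearMap.inl ℝ (Fin 3 → ℝ) ℝ)) else 0)
    ∅ countable_empty ?_ ?_ ?_
  · have hL : (∫ x in Icc (0 : Fin 3 → ℝ) 1, ∑ j : Fin (2+1),
        ((if j = i then
      ((fderiv ℝ f (x, t)).comp (ContinuousLinearMap.inl ℝ (Fin 3 → ℝ) ℝ)) else 0) :
        (Fin 3 → ℝ) →L[ℝ] ℝ) (Pi.single j 1)) = In (pd (ex i) f) t := by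
      unfold In Q pd ex
      refine setIntegral_congr_fun measurableSet_Icc (fun x _ => ?_)
      rw [Finset.sum_eq_single i]
      · simp
      · intro j _ hj
        simp [hj]
      · simp
    rw [hL] at hdiv
    rw [hdiv]
    refine Finset.sum_eq_zero (fun j _ => ?_)
    by_cases hj : j = i
    · subst hj
      simp only [if_true]
      rw [sub_eq_zero]
      refine setIntegral_congr_fun (by measurability) (fun x _ => ?_)
      have h := hf.per j (j.insertNth (0 : ℝ) x, t)
      have h2 : ((j.insertNth (0 : ℝ) x, t) : V) + ex j = (j.insertNth (1 : ℝ) x, t) := by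
        unfold ex
        ext k
        · simp only [Prod.mk_add_mk, add_zero, Pi.add_apply]
          by_cases hk : k = j
          · subst hk; simp
          · obtain ⟨l, rfl⟩ := Fin.exists_succAbove_eq hk
            simp
        · simp
      rw [h2] at h
      simpa using h
    · simp [hj]
  · intro j
    by_cases hj : j = i
    · simp only [hj, if_true]
      exact (slice_cont hf ht).continuousOn
    · simp only [hj, if_false]
      exact continuousOn_const
  · intro x _ j
    by_cases hj : j = i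
    · simp only [hj, if_true]
      exact fderiv_slice hf ht x
    · simp only [hj, if_false]
      exact hasFDerivAt_const _ _
  · have : (fun x : Fin 3 → ℝ => ∑ j : Fin (2+1),
        ((if j = i then
      ((fderiv ℝ f (x, t)).comp (ContinuousLinearMap.inl ℝ (Fin 3 → ℝ) ℝ)) else 0) :
        (Fin 3 → ℝ) →L[ℝ] ℝ) (Pi.single j 1)) = fun x => pd (ex i) f (x, t) := by
      funext x
      rw [Finset.sum_eq_single i]
      · simp [pd, ex]
      · intro j _ hj
        simp [hj]
      · simp
    rw [this]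
    exact integrableOn_slice (hf.pd _) ht

lemma In_add {f g : V → ℝ} (hf : Good a b f) (hg : Good a b g) {t : ℝ} (ht : t ∈ Ioo a b) :
    In (fun z => f z + g z) t = In f t + In g t :=
  integral_add (integrableOn_slice hf ht) (integrableOn_slice hg ht)

lemma In_sub {f g : V → ℝ} (hf : Good a b f) (hg : Good a b g) {t : ℝ} (ht : t ∈ Ioo a b) :
    In (fun z => f z - g z) t = In f t - In g t :=
  integral_sub (integrableOn_slice hf ht) (integrableOn_slice hg ht)

lemma In_cmul (c : ℝ) (f : V → ℝ) (t : ℝ) :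
    In (fun z => c * f z) t = c * In f t := integral_const_mul _ _

lemma In_congr {f g : V → ℝ} {t : ℝ} (h : ∀ x ∈ Q, f (x, t) = g (x, t)) : In f t = In g t :=
  setIntegral_congr_fun measurableSet_Icc h

lemma In_mono {f g : V → ℝ} (hf : Good a b f) (hg : Good a b g) {t : ℝ} (ht : t ∈ Ioo a b)
    (h : ∀ x ∈ Q, f (x, t) ≤ g (x, t)) : In f t ≤ In g t :=
  setIntegral_mono_on (integrableOn_slice hf ht) (integrableOn_slice hg ht) measurableSet_Icc h

lemma In_sum {f : Fin 3 → V → ℝ} (hf : ∀ i, Good a b (f i)) {t : ℝ} (ht : t ∈ Ioo a b) :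
    In (fun z => ∑ i, f i z) t = ∑ i, In (f i) t :=
  integral_finsetSum _ (fun i _ => integrableOn_slice (hf i) ht)

/-- integration by parts -/
lemma In_parts {f g : V → ℝ} (hf : Good a b f) (hg : Good a b g) (i : Fin 3) {t : ℝ}
    (ht : t ∈ Ioo a b) :
    In (fun z => pd (ex i) f z * g z) t = - In (fun z => f z * pd (ex i) g z) t := by
  have h1 : In (pd (ex i) (fun z => f z * g z)) t = 0 := In_pd_ex (hf.mul hg) i ht
  have h2 : In (pd (ex i) (fun z => f z * g z)) t
      = In (fun z => pd (ex i) f z * g z + f z * pd (ex i) g z) t :=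
    In_congr (fun x _ => pd_mul hf hg _ (z := (x, t)) ht)
  rw [h2, In_add ((hf.pd _).mul hg) (hf.mul (hg.pd _)) ht] at h1
  linarith

/-- differentiation under the integral sign -/
lemma hasDerivAt_In {f : V → ℝ} (hf : Good a b f) {t : ℝ} (ht : t ∈ Ioo a b) :
    HasDerivAt (In f) (In (pd et f) t) t := by
  obtain ⟨ε, hε, hsub⟩ : ∃ ε > 0, Icc (t - ε) (t + ε) ⊆ Ioo a b := by
    obtain ⟨h1, h2⟩ := ht
    refine ⟨min (t - a) (b - t) / 2, by
      have : 0 < min (t - a) (b - t) := lt_min (by linarith) (by linarith)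
      linarith, ?_⟩
    intro s hs
    have m1 : min (t - a) (b - t) ≤ t - a := min_le_left _ _
    have m2 : min (t - a) (b - t) ≤ b - t := min_le_right _ _
    have m3 : 0 < min (t - a) (b - t) := lt_min (by linarith) (by linarith)
    exact ⟨by linarith [hs.1], by linarith [hs.2]⟩
  -- bound of the derivative on the compact set
  have hK : IsCompact (Q ×ˢ Icc (t - ε) (t + ε)) := isCompact_Icc.prod isCompact_Icc
  have hcont : ContinuousOn (pd et f) (Q ×ˢ Icc (t - ε) (t + ε)) := by
    refine ((hf.pd et).smooth.continuousOn).mono ?_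
    rintro ⟨x, s⟩ ⟨_, hs⟩
    exact hsub hs
  obtain ⟨C, hC⟩ := hK.exists_bound_of_continuousOn hcont
  have hmem : Icc (t - ε) (t + ε) ∈ 𝓝 t := Icc_mem_nhds (by linarith) (by linarith)
  have key := hasDerivAt_integral_of_dominated_loc_of_deriv_le
    (μ := volume.restrict Q) (F := fun s x => f (x, s)) (F' := fun s x => pd et f (x, s))
    (x₀ := t) (s := Icc (t - ε) (t + ε)) (bound := fun _ => C) hmem ?_ ?_ ?_ ?_ ?_ ?_
  · exact key.2
  · filter_upwards [hmem] with s hs
    exact (slice_cont hf (hsub hs)).aestronglyMeasurable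
  · exact integrableOn_slice hf ht
  · exact (slice_cont (hf.pd et) ht).aestronglyMeasurable
  · refine (ae_restrict_iff' measurableSet_Icc).2 (Eventually.of_forall ?_)
    intro x hx s hs
    exact hC (x, s) ⟨hx, hs⟩
  · exact integrableOn_const (by simp [Q, Real.volume_Icc_pi])
  · refine Eventually.of_forall ?_
    intro x s hs
    have h1 : HasFDerivAt f (fderiv ℝ f (x, s)) (x, s) :=
      (hf.diff (z := (x, s)) (hsub hs)).hasFDerivAt
    have h2 : HasDerivAt (fun s : ℝ => ((x, s) : V)) et s := by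
      have := (hasDerivAt_const s x).prodMk (hasDerivAt_id s)
      exact this
    exact h1.comp_hasDerivAt s h2

end H319NS
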