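import Pool.Agent.H319R3.NS.A

/-!
# Navier–Stokes on `ℝ³ × (a,b)`, periodic: vorticity equation and enstrophy balance
-/

namespace H319NS

open MeasureTheory Set Filter Topology
open scoped ContDiff

variable {a b ν : ℝ}

/-- `(u,p)` is a smooth `ℤ³`-periodic solution of the unforced incompressible Navier–Stokes
equations with viscosity `ν` on `ℝ³ × (a,b)`. -/
structure IsNS (ν a b : ℝ) (u : Fin 3 → V → ℝ) (p : V → ℝ) : Prop where
  good_u : ∀ i, Good a b (u i)
  good_p : Good a b p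
  div_free : ∀ z ∈ Slab a b, ∑ i, pd (ex i) (u i) z = 0
  momentum : ∀ i, ∀ z ∈ Slab a b,
    pd et (u i) z + ∑ j, u j z * pd (ex j) (u i) z
      = ν * ∑ j, pd (ex j) (pd (ex j) (u i)) z - pd (ex i) p z

/-- the vorticity `ω = curl u` -/
noncomputable def vort (u : Fin 3 → V → ℝ) (i : Fin 3) : V → ℝ :=
  fun z => pd (ex (i + 1)) (u (i + 2)) z - pd (ex (i + 2)) (u (i + 1)) z

/-- Laplacian in space -/
noncomputable def lap (f : V → ℝ) : V → ℝ := fun z => ∑ j, pd (ex j) (pd (ex j) f) z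

/-- enstrophy `∫ |ω|²` over the unit cube -/
noncomputable def enstrophy (u : Fin 3 → V → ℝ) (t : ℝ) : ℝ :=
  In (fun z => ∑ i, vort u i z * vort u i z) t

lemma good_vort {u : Fin 3 → V → ℝ} (hu : ∀ i, Good a b (u i)) (i : Fin 3) :
    Good a b (vort u i) := ((hu _).pd _).sub ((hu _).pd _)

lemma good_lap {f : V → ℝ} (hf : Good a b f) : Good a b (lap f) :=
  Good.sum (fun j => (hf.pd _).pd _)

lemma lap_comm {f : V → ℝ} (hf : Good a b f) (v : V) {z : V} (hz : z ∈ Slab a b) :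
    pd v (lap f) z = lap (pd v f) z := by
  unfold lap
  rw [pd_sum (fun j => (hf.pd _).pd _) v hz]
  refine Finset.sum_congr rfl (fun j _ => ?_)
  rw [pd_comm (hf.pd _) v (ex j) hz]
  exact pd_congr (ex j) hz (fun y hy => pd_comm hf v (ex j) hy)

lemma lap_sub {f g : V → ℝ} (hf : Good a b f) (hg : Good a b g) {z : V} (hz : z ∈ Slab a b) :
    lap (fun z => f z - g z) z = lap f z - lap g z := by
  unfold lap
  rw [← Finset.sum_sub_distrib]
  refine Finset.sum_congr rfl (fun j _ => ?_)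
  rw [← pd_sub (hf.pd _) (hg.pd _) (ex j) hz]
  exact pd_congr (ex j) hz (fun y hy => pd_sub hf hg (ex j) hy)

/-- a derivative of the momentum equation -/
lemma momentum_pd {u : Fin 3 → V → ℝ} {p : V → ℝ} (h : IsNS ν a b u p) (v : V) (i : Fin 3)
    {z : V} (hz : z ∈ Slab a b) :
    pd et (pd v (u i)) z
      = ν * lap (pd v (u i)) z - pd v (pd (ex i) p) z
        - ∑ j, (pd v (u j) z * pd (ex j) (u i) z + u j z * pd (ex j) (pd v (u i)) z) := by
  have hg := h.good_u
  have hp := h.good_p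
  have e1 : pd et (pd v (u i)) z = pd v (pd et (u i)) z := pd_comm (hg i) et v hz
  have e2 : pd v (pd et (u i)) z
      = pd v (fun z => (ν * lap (u i) z - pd (ex i) p z) - ∑ j, u j z * pd (ex j) (u i) z) z := by
    refine pd_congr v hz (fun y hy => ?_)
    have := h.momentum i y hy
    unfold lap
    linarith
  have g1 : Good a b (fun z => ν * lap (u i) z) := Good.cmul ν (good_lap (hg i))
  have g2 : Good a b (pd (ex i) p) := hp.pd _
  have g3 : ∀ j, Good a b (fun z => u j z * pd (ex j) (u i) z) :=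
    fun j => (hg j).mul ((hg i).pd _)
  rw [e1, e2, pd_sub (g1.sub g2) (Good.sum g3) v hz, pd_sub g1 g2 v hz,
    pd_cmul ν (good_lap (hg i)) v hz, lap_comm (hg i) v hz, pd_sum g3 v hz]
  congr 1
  refine Finset.sum_congr rfl (fun j _ => ?_)
  rw [pd_mul (hg j) ((hg i).pd _) v hz, pd_comm (hg i) v (ex j) hz]

/-- the vorticity equation -/
lemma vorticity_eq {u : Fin 3 → V → ℝ} {p : V → ℝ} (h : IsNS ν a b u p) (i : Fin 3)
    {z : V} (hz : z ∈ Slab a b) :
    pd et (vort u i) z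
      = ν * lap (vort u i) z - ∑ j, u j z * pd (ex j) (vort u i) z
        + ∑ j, vort u j z * pd (ex j) (u i) z := by
  have hg := h.good_u
  have hp := h.good_p
  have hdiv := h.div_free z hz
  have m1 := momentum_pd h (ex (i + 1)) (i + 2) hz
  have m2 := momentum_pd h (ex (i + 2)) (i + 1) hz
  have hpc : pd (ex (i + 1)) (pd (ex (i + 2)) p) z = pd (ex (i + 2)) (pd (ex (i + 1)) p) z :=
    pd_comm hp _ _ hz
  have e1 : pd et (vort u i) z
      = pd et (pd (ex (i + 1)) (u (i + 2))) z - pd et (pd (ex (i + 2)) (u (i + 1))) z :=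
    pd_sub ((hg _).pd _) ((hg _).pd _) et hz
  have e2 : lap (vort u i) z
      = lap (pd (ex (i + 1)) (u (i + 2))) z - lap (pd (ex (i + 2)) (u (i + 1))) z :=
    lap_sub ((hg _).pd _) ((hg _).pd _) hz
  have e3 : ∀ j, pd (ex j) (vort u i) z
      = pd (ex j) (pd (ex (i + 1)) (u (i + 2))) z - pd (ex j) (pd (ex (i + 2)) (u (i + 1))) z :=
    fun j => pd_sub ((hg _).pd _) ((hg _).pd _) (ex j) hz
  rw [e1, e2, m1, m2]
  simp only [e3]
  simp only [Fin.sum_univ_three] at *
  fin_cases i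
  · simp only [vort, Fin.zero_eta, Fin.isValue, zero_add, Fin.reduceAdd, Fin.mk_one] at *
    linear_combination (pd (ex 2) (u 1) z - pd (ex 1) (u 2) z) * hdiv - hpc
  · simp only [vort, Fin.zero_eta, Fin.isValue, zero_add, Fin.reduceAdd, Fin.mk_one] at *
    linear_combination (pd (ex 0) (u 2) z - pd (ex 2) (u 0) z) * hdiv - hpc
  · simp only [vort, Fin.reduceFinMk, Fin.isValue, zero_add, Fin.reduceAdd, Fin.mk_one] at *
    linear_combination (pd (ex 1) (u 0) z - pd (ex 0) (u 1) z) * hdiv - hpc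

/-- the vorticity is divergence free -/
lemma div_vort {u : Fin 3 → V → ℝ} (hg : ∀ i, Good a b (u i)) {z : V} (hz : z ∈ Slab a b) :
    ∑ j, pd (ex j) (vort u j) z = 0 := by
  have e3 : ∀ j, pd (ex j) (vort u j) z
      = pd (ex j) (pd (ex (j + 1)) (u (j + 2))) z - pd (ex j) (pd (ex (j + 2)) (u (j + 1))) z :=
    fun j => pd_sub ((hg _).pd _) ((hg _).pd _) (ex j) hz
  simp only [e3, Fin.sum_univ_three]
  simp only [Fin.isValue, zero_add, Fin.reduceAdd]
  have c1 := pd_comm (hg 2) (ex 0) (ex 1) hz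
  have c2 := pd_comm (hg 1) (ex 0) (ex 2) hz
  have c3 := pd_comm (hg 0) (ex 1) (ex 2) hz
  linarith

end H319NS
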