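import Pool.Agent.H319R3.NS.B

/-!
# Integral identities and the differential inequality for the enstrophy
-/

namespace H319NS

open MeasureTheory Set Filter Topology
open scoped ContDiff

variable {a b ν : ℝ}

/-- spatial partial derivative of a function on `ℝ³` -/
noncomputable def sd (j : Fin 3) (f : (Fin 3 → ℝ) → ℝ) (x : Fin 3 → ℝ) : ℝ :=
  fderiv ℝ f x (Pi.single j 1)

/-- smooth `ℤ³`-periodic function on `ℝ³` -/
structure SmoothPer (f : (Fin 3 → ℝ) → ℝ) : Prop where
  smooth : ContDiff ℝ ∞ f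
  per : ∀ (i : Fin 3) (x : Fin 3 → ℝ), f (x + Pi.single i 1) = f x

/-- a function of space viewed as a (time independent) function of space-time -/
def fro (f : (Fin 3 → ℝ) → ℝ) : V → ℝ := fun z => f z.1

lemma SmoothPer.good {f : (Fin 3 → ℝ) → ℝ} (hf : SmoothPer f) : Good a b (fro f) :=
  ⟨(hf.smooth.comp contDiff_fst).contDiffOn, fun i z => by simp [fro, ex, hf.per i z.1]⟩

lemma pd_fro {f : (Fin 3 → ℝ) → ℝ} (hf : SmoothPer f) (j : Fin 3) (z : V) :
    pd (ex j) (fro f) z = sd j f z.1 := by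
  have h1 : HasFDerivAt f (fderiv ℝ f z.1) z.1 :=
    (hf.smooth.differentiable (by simp) z.1).hasFDerivAt
  have h2 : HasFDerivAt (fro f) ((fderiv ℝ f z.1).comp (ContinuousLinearMap.fst ℝ _ ℝ)) z :=
    h1.comp z hasFDerivAt_fst
  unfold pd sd
  rw [h2.fderiv]
  simp [ex]

/-- `|ω|²` -/
noncomputable def SS (u : Fin 3 → V → ℝ) (z : V) : ℝ := ∑ i, vort u i z ^ 2

/-- `|∇ω|²` -/
noncomputable def GG (u : Fin 3 → V → ℝ) (z : V) : ℝ :=
  ∑ i, ∑ j, pd (ex j) (vort u i) z ^ 2

/-- the quantity in the criterion, for a comparison field `w` and a multiplier `κ`: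
`ω·(ω·∇)w − (u−w)·(ω·∇)ω + κ (u−w)·∇(|ω|²/2) + (|ω|²/2) (∇κ·(u−w) − κ div w)`. -/
noncomputable def crit (u : Fin 3 → V → ℝ) (w : Fin 3 → (Fin 3 → ℝ) → ℝ)
    (κ : (Fin 3 → ℝ) → ℝ) (x : Fin 3 → ℝ) (t : ℝ) : ℝ :=
  (∑ i, ∑ j, vort u i (x, t) * vort u j (x, t) * sd j (w i) x)
  - (∑ i, ∑ j, (u i (x, t) - w i x) * vort u j (x, t) * pd (ex j) (vort u i) (x, t))
  + κ x * (∑ i, (u i (x, t) - w i x) * ∑ l, vort u l (x, t) * pd (ex i) (vort u l) (x, t))
  + (1 / 2) * SS u (x, t) *
      ((∑ i, sd i κ x * (u i (x, t) - w i x)) - κ x * ∑ i, sd i (w i) x)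

/-- the stretching term -/
noncomputable def stretch (u : Fin 3 → V → ℝ) (z : V) : ℝ :=
  ∑ i, ∑ j, vort u i z * vort u j z * pd (ex j) (u i) z

lemma good_sq {f : V → ℝ} (hf : Good a b f) : Good a b (fun z => f z ^ 2) := by
  simpa [sq] using hf.mul hf

lemma good_SS {u : Fin 3 → V → ℝ} (hg : ∀ i, Good a b (u i)) : Good a b (SS u) :=
  Good.sum (fun i => good_sq (good_vort hg i))

lemma good_GG {u : Fin 3 → V → ℝ} (hg : ∀ i, Good a b (u i)) : Good a b (GG u) :=
  Good.sum (fun i => Good.sum (f := fun j z => pd (ex j) (vort u i) z ^ 2)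
    (fun j => good_sq ((good_vort hg i).pd _)))

lemma good_stretch {u : Fin 3 → V → ℝ} (hg : ∀ i, Good a b (u i)) : Good a b (stretch u) :=
  Good.sum (fun i => Good.sum
    (f := fun j z => vort u i z * vort u j z * pd (ex j) (u i) z)
    (fun j => ((good_vort hg i).mul (good_vort hg j)).mul ((hg i).pd _)))

/-- the function whose slices are `crit` -/
noncomputable def critF (u : Fin 3 → V → ℝ) (w : Fin 3 → (Fin 3 → ℝ) → ℝ)
    (κ : (Fin 3 → ℝ) → ℝ) (z : V) : ℝ :=
  (∑ i, ∑ j, vort u i z * vort u j z * pd (ex j) (fro (w i)) z)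
  - (∑ i, ∑ j, (u i z - fro (w i) z) * vort u j z * pd (ex j) (vort u i) z)
  + fro κ z * (∑ i, (u i z - fro (w i) z) * ∑ l, vort u l z * pd (ex i) (vort u l) z)
  + (1 / 2) * SS u z *
      ((∑ i, pd (ex i) (fro κ) z * (u i z - fro (w i) z)) - fro κ z * ∑ i, pd (ex i) (fro (w i)) z)

lemma critF_eq {u : Fin 3 → V → ℝ} {w : Fin 3 → (Fin 3 → ℝ) → ℝ} {κ : (Fin 3 → ℝ) → ℝ}
    (hw : ∀ i, SmoothPer (w i)) (hκ : SmoothPer κ) (x : Fin 3 → ℝ) (t : ℝ) :
    critF u w κ (x, t) = crit u w κ x t := by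
  unfold critF crit
  simp only [pd_fro hκ, pd_fro (hw _), fro]

lemma good_critF {u : Fin 3 → V → ℝ} {w : Fin 3 → (Fin 3 → ℝ) → ℝ} {κ : (Fin 3 → ℝ) → ℝ}
    (hg : ∀ i, Good a b (u i)) (hw : ∀ i, SmoothPer (w i)) (hκ : SmoothPer κ) :
    Good a b (critF u w κ) := by
  have hW := good_vort hg
  have hwg : ∀ i, Good a b (fro (w i)) := fun i => (hw i).good
  have hκg : Good a b (fro κ) := hκ.good
  have g1 : Good a b (fun z => ∑ i, ∑ j, vort u i z * vort u j z * pd (ex j) (fro (w i)) z) :=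
    Good.sum (fun i => Good.sum
      (f := fun j z => vort u i z * vort u j z * pd (ex j) (fro (w i)) z)
      (fun j => ((hW i).mul (hW j)).mul ((hwg i).pd _)))
  have g2 : Good a b (fun z => ∑ i, ∑ j, (u i z - fro (w i) z) * vort u j z
      * pd (ex j) (vort u i) z) :=
    Good.sum (fun i => Good.sum
      (f := fun j z => (u i z - fro (w i) z) * vort u j z * pd (ex j) (vort u i) z)
      (fun j => (((hg i).sub (hwg i)).mul (hW j)).mul ((hW i).pd _)))
  have g3 : Good a b (fun z => fro κ z * ∑ i, (u i z - fro (w i) z) *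
      ∑ l, vort u l z * pd (ex i) (vort u l) z) :=
    hκg.mul (Good.sum (f := fun i z => (u i z - fro (w i) z) *
      ∑ l, vort u l z * pd (ex i) (vort u l) z)
      (fun i => ((hg i).sub (hwg i)).mul
        (Good.sum (f := fun l z => vort u l z * pd (ex i) (vort u l) z)
          (fun l => (hW l).mul ((hW l).pd _)))))
  have g4 : Good a b (fun z => (1 / 2) * SS u z *
      ((∑ i, pd (ex i) (fro κ) z * (u i z - fro (w i) z))
        - fro κ z * ∑ i, pd (ex i) (fro (w i)) z)) :=
    (Good.cmul _ (good_SS hg)).mul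
      ((Good.sum (f := fun i z => pd (ex i) (fro κ) z * (u i z - fro (w i) z))
        (fun i => (hκg.pd _).mul ((hg i).sub (hwg i)))).sub
        (hκg.mul (Good.sum (f := fun i z => pd (ex i) (fro (w i)) z) (fun i => (hwg i).pd _))))
  exact ((g1.sub g2).add g3).add g4

/-- `∫ ω·(ω·∇)u = ∫ crit` -/
lemma In_stretch {u : Fin 3 → V → ℝ} {p : V → ℝ} (h : IsNS ν a b u p)
    {w : Fin 3 → (Fin 3 → ℝ) → ℝ} {κ : (Fin 3 → ℝ) → ℝ}
    (hw : ∀ i, SmoothPer (w i)) (hκ : SmoothPer κ) {t : ℝ} (ht : t ∈ Ioo a b) :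
    In (stretch u) t = In (critF u w κ) t := by
  have hg := h.good_u
  have hW := good_vort hg
  have hwg : ∀ i, Good a b (fro (w i)) := fun i => (hw i).good
  have hκg : Good a b (fro κ) := hκ.good
  have hD : ∀ i, Good a b (fun z => u i z - fro (w i) z) := fun i => (hg i).sub (hwg i)
  -- first identity
  let F : Fin 3 → Fin 3 → V → ℝ := fun i j z => (u i z - fro (w i) z) * (vort u i z * vort u j z)
  have hF : ∀ i j, Good a b (F i j) := fun i j => (hD i).mul ((hW i).mul (hW j))
  have hF0 : In (fun z => ∑ i, ∑ j, pd (ex j) (F i j) z) t = 0 := by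
    rw [In_sum (f := fun i z => ∑ j, pd (ex j) (F i j) z)
      (fun i => Good.sum (f := fun j z => pd (ex j) (F i j) z) (fun j => (hF i j).pd _)) ht]
    refine Finset.sum_eq_zero (fun i _ => ?_)
    rw [In_sum (f := fun j z => pd (ex j) (F i j) z) (fun j => (hF i j).pd _) ht]
    exact Finset.sum_eq_zero (fun j _ => In_pd_ex (hF i j) j ht)
  -- second identity
  let E : V → ℝ := fun z => (1 / 2) * SS u z
  have hE : Good a b E := Good.cmul _ (good_SS hg)
  let H : Fin 3 → V → ℝ := fun i z => fro κ z * ((u i z - fro (w i) z) * E z)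
  have hH : ∀ i, Good a b (H i) := fun i => hκg.mul ((hD i).mul hE)
  have hH0 : In (fun z => ∑ i, pd (ex i) (H i) z) t = 0 := by
    rw [In_sum (f := fun i z => pd (ex i) (H i) z) (fun i => (hH i).pd _) ht]
    exact Finset.sum_eq_zero (fun i _ => In_pd_ex (hH i) i ht)
  have hsum : In (fun z => (∑ i, ∑ j, pd (ex j) (F i j) z) - ∑ i, pd (ex i) (H i) z) t = 0 := by
    rw [In_sub (Good.sum (f := fun i z => ∑ j, pd (ex j) (F i j) z)
      (fun i => Good.sum (f := fun j z => pd (ex j) (F i j) z) (fun j => (hF i j).pd _)))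
      (Good.sum (f := fun i z => pd (ex i) (H i) z) (fun i => (hH i).pd _)) ht, hF0, hH0]
    simp
  have hpt : ∀ x ∈ Q, (fun z => (∑ i, ∑ j, pd (ex j) (F i j) z) - ∑ i, pd (ex i) (H i) z) (x, t)
      = (fun z => stretch u z - critF u w κ z) (x, t) := by
    intro x _
    have hz : ((x, t) : V) ∈ Slab a b := ht
    have hdiv := h.div_free _ hz
    have hdw := div_vort hg hz
    have eF : ∀ i j, pd (ex j) (F i j) (x, t)
        = (pd (ex j) (u i) (x, t) - pd (ex j) (fro (w i)) (x, t))
            * (vort u i (x, t) * vort u j (x, t))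
          + (u i (x, t) - fro (w i) (x, t)) *
            (pd (ex j) (vort u i) (x, t) * vort u j (x, t)
              + vort u i (x, t) * pd (ex j) (vort u j) (x, t)) := by
      intro i j
      rw [show F i j = fun z => (u i z - fro (w i) z) * (vort u i z * vort u j z) from rfl,
        pd_mul (hD i) ((hW i).mul (hW j)) _ hz, pd_sub (hg i) (hwg i) _ hz,
        pd_mul (hW i) (hW j) _ hz]
    have eE : ∀ i, pd (ex i) E (x, t) = ∑ l, vort u l (x, t) * pd (ex i) (vort u l) (x, t) := by
      intro i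
      have e1 : pd (ex i) E (x, t) = (1 / 2) * pd (ex i) (SS u) (x, t) :=
        pd_cmul (1 / 2) (good_SS hg) (ex i) hz
      have e2 : pd (ex i) (SS u) (x, t)
          = ∑ l, pd (ex i) (fun z => vort u l z ^ 2) (x, t) :=
        pd_sum (f := fun l z => vort u l z ^ 2) (fun l => good_sq (hW l)) (ex i) hz
      have e3 : ∀ l, pd (ex i) (fun z => vort u l z ^ 2) (x, t)
          = 2 * (vort u l (x, t) * pd (ex i) (vort u l) (x, t)) := by
        intro l
        have : (fun z => vort u l z ^ 2) = fun z => vort u l z * vort u l z := by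
          funext z; ring
        rw [this, pd_mul (hW l) (hW l) _ hz]
        ring
      rw [e1, e2]
      simp only [e3]
      rw [← Finset.mul_sum]
      ring
    have eH : ∀ i, pd (ex i) (H i) (x, t)
        = pd (ex i) (fro κ) (x, t) * ((u i (x, t) - fro (w i) (x, t)) * E (x, t))
          + fro κ (x, t) * ((pd (ex i) (u i) (x, t) - pd (ex i) (fro (w i)) (x, t)) * E (x, t)
            + (u i (x, t) - fro (w i) (x, t)) *
              ∑ l, vort u l (x, t) * pd (ex i) (vort u l) (x, t)) := by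
      intro i
      rw [show H i = fun z => fro κ z * ((u i z - fro (w i) z) * E z) from rfl,
        pd_mul hκg ((hD i).mul hE) _ hz, pd_mul (hD i) hE _ hz, pd_sub (hg i) (hwg i) _ hz, eE i]
    simp only [eF, eH]
    have hEv : E (x, t) = (1 / 2) * SS u (x, t) := rfl
    rw [hEv]
    unfold stretch critF
    simp only [Fin.sum_univ_three] at *
    linear_combination ((u 0 (x, t) - fro (w 0) (x, t)) * vort u 0 (x, t)
      + (u 1 (x, t) - fro (w 1) (x, t)) * vort u 1 (x, t)
      + (u 2 (x, t) - fro (w 2) (x, t)) * vort u 2 (x, t)) * hdw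
      - (fro κ (x, t) * ((1 / 2) * SS u (x, t))) * hdiv
  have hc := In_congr (f := fun z => (∑ i, ∑ j, pd (ex j) (F i j) z) - ∑ i, pd (ex i) (H i) z)
    (g := fun z => stretch u z - critF u w κ z) (t := t) hpt
  rw [hc, In_sub (good_stretch hg) (good_critF hg hw hκ) ht] at hsum
  linarith

/-- the derivative of the enstrophy -/
lemma hasDerivAt_enstrophy {u : Fin 3 → V → ℝ} {p : V → ℝ} (h : IsNS ν a b u p)
    {t : ℝ} (ht : t ∈ Ioo a b) :
    HasDerivAt (In (SS u)) (-(2 * ν) * In (GG u) t + 2 * In (stretch u) t) t := by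
  have hg := h.good_u
  have hW := good_vort hg
  have h1 := hasDerivAt_In (good_SS hg) ht
  convert h1 using 1
  -- integrations by parts
  have i3 : In (fun z => ∑ i, ∑ j, (pd (ex j) (pd (ex j) (vort u i)) z * vort u i z
      + pd (ex j) (vort u i) z ^ 2)) t = 0 := by
    have : ∀ i j, Good a b (fun z => pd (ex j) (pd (ex j) (vort u i)) z * vort u i z
      + pd (ex j) (vort u i) z ^ 2) := fun i j =>
      ((((hW i).pd _).pd _).mul (hW i)).add (good_sq ((hW i).pd _))
    rw [In_sum (f := fun i z => ∑ j, (pd (ex j) (pd (ex j) (vort u i)) z * vort u i z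
      + pd (ex j) (vort u i) z ^ 2))
      (fun i => Good.sum (f := fun j z => pd (ex j) (pd (ex j) (vort u i)) z * vort u i z
      + pd (ex j) (vort u i) z ^ 2) (fun j => this i j)) ht]
    refine Finset.sum_eq_zero (fun i _ => ?_)
    rw [In_sum (f := fun j z => pd (ex j) (pd (ex j) (vort u i)) z * vort u i z
      + pd (ex j) (vort u i) z ^ 2) (fun j => this i j) ht]
    refine Finset.sum_eq_zero (fun j _ => ?_)
    have e0 := In_pd_ex (((hW i).pd (ex j)).mul (hW i)) j ht
    rw [← e0]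
    refine In_congr (fun x _ => ?_)
    have hz : ((x, t) : V) ∈ Slab a b := ht
    rw [pd_mul ((hW i).pd (ex j)) (hW i) _ hz]
    ring
  have i4 : In (fun z => ∑ j, ((1 / 2) * pd (ex j) (u j) z * SS u z
      + u j z * ∑ l, vort u l z * pd (ex j) (vort u l) z)) t = 0 := by
    have hgood : ∀ j, Good a b (fun z => (1 / 2) * pd (ex j) (u j) z * SS u z
      + u j z * ∑ l, vort u l z * pd (ex j) (vort u l) z) := fun j =>
      ((Good.cmul _ ((hg j).pd _)).mul (good_SS hg)).add ((hg j).mul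
        (Good.sum (f := fun l z => vort u l z * pd (ex j) (vort u l) z)
          (fun l => (hW l).mul ((hW l).pd _))))
    rw [In_sum (f := fun j z => (1 / 2) * pd (ex j) (u j) z * SS u z
      + u j z * ∑ l, vort u l z * pd (ex j) (vort u l) z) hgood ht]
    refine Finset.sum_eq_zero (fun j _ => ?_)
    have e0 := In_pd_ex ((hg j).mul (Good.cmul (1 / 2) (good_SS hg))) j ht
    rw [← e0]
    refine In_congr (fun x _ => ?_)
    have hz : ((x, t) : V) ∈ Slab a b := ht
    rw [pd_mul (hg j) (Good.cmul (1 / 2) (good_SS hg)) _ hz,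
      pd_cmul (1 / 2) (good_SS hg) _ hz]
    have e2 : pd (ex j) (SS u) (x, t)
        = ∑ l, pd (ex j) (fun z => vort u l z ^ 2) (x, t) :=
      pd_sum (f := fun l z => vort u l z ^ 2) (fun l => good_sq (hW l)) (ex j) hz
    have e3 : ∀ l, pd (ex j) (fun z => vort u l z ^ 2) (x, t)
        = 2 * (vort u l (x, t) * pd (ex j) (vort u l) (x, t)) := by
      intro l
      have : (fun z => vort u l z ^ 2) = fun z => vort u l z * vort u l z := by
        funext z; ring
      rw [this, pd_mul (hW l) (hW l) _ hz]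
      ring
    rw [e2]
    simp only [e3, Fin.sum_univ_three]
    ring
  have hpt : ∀ x ∈ Q, pd et (SS u) (x, t)
      = (fun z => (2 * ν) * (∑ i, ∑ j, (pd (ex j) (pd (ex j) (vort u i)) z * vort u i z
      + pd (ex j) (vort u i) z ^ 2)) - 2 * (∑ j, ((1 / 2) * pd (ex j) (u j) z * SS u z
      + u j z * ∑ l, vort u l z * pd (ex j) (vort u l) z))
      + (-(2 * ν) * GG u z + 2 * stretch u z)) (x, t) := by
    intro x _
    have hz : ((x, t) : V) ∈ Slab a b := ht
    have hdiv := h.div_free _ hz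
    have e2 : pd et (SS u) (x, t)
        = ∑ l, pd et (fun z => vort u l z ^ 2) (x, t) :=
      pd_sum (f := fun l z => vort u l z ^ 2) (fun l => good_sq (hW l)) et hz
    have e3 : ∀ l, pd et (fun z => vort u l z ^ 2) (x, t)
        = 2 * (vort u l (x, t) * pd et (vort u l) (x, t)) := by
      intro l
      have : (fun z => vort u l z ^ 2) = fun z => vort u l z * vort u l z := by
        funext z; ring
      rw [this, pd_mul (hW l) (hW l) _ hz]
      ring
    rw [e2]
    simp only [e3, vorticity_eq h _ hz]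
    unfold lap GG stretch
    simp only [Fin.sum_univ_three] at *
    linear_combination (SS u (x, t)) * hdiv
  have hc := In_congr (f := pd et (SS u))
    (g := fun z => (2 * ν) * (∑ i, ∑ j, (pd (ex j) (pd (ex j) (vort u i)) z * vort u i z
      + pd (ex j) (vort u i) z ^ 2)) - 2 * (∑ j, ((1 / 2) * pd (ex j) (u j) z * SS u z
      + u j z * ∑ l, vort u l z * pd (ex j) (vort u l) z))
      + (-(2 * ν) * GG u z + 2 * stretch u z)) (t := t) hpt
  rw [hc]
  have g3 : Good a b (fun z => ∑ i, ∑ j, (pd (ex j) (pd (ex j) (vort u i)) z * vort u i z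
      + pd (ex j) (vort u i) z ^ 2)) :=
    Good.sum (fun i => Good.sum (f := fun j z => pd (ex j) (pd (ex j) (vort u i)) z * vort u i z
      + pd (ex j) (vort u i) z ^ 2) (fun j =>
        ((((hW i).pd _).pd _).mul (hW i)).add (good_sq ((hW i).pd _))))
  have g4 : Good a b (fun z => ∑ j, ((1 / 2) * pd (ex j) (u j) z * SS u z
      + u j z * ∑ l, vort u l z * pd (ex j) (vort u l) z)) :=
    Good.sum (f := fun j z => (1 / 2) * pd (ex j) (u j) z * SS u z
      + u j z * ∑ l, vort u l z * pd (ex j) (vort u l) z) (fun j =>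
      ((Good.cmul _ ((hg j).pd _)).mul (good_SS hg)).add ((hg j).mul
        (Good.sum (f := fun l z => vort u l z * pd (ex j) (vort u l) z)
          (fun l => (hW l).mul ((hW l).pd _)))))
  rw [In_add ((Good.cmul _ g3).sub (Good.cmul _ g4))
    ((Good.cmul _ (good_GG hg)).add (Good.cmul _ (good_stretch hg))) ht,
    In_sub (Good.cmul _ g3) (Good.cmul _ g4) ht,
    In_add (Good.cmul _ (good_GG hg)) (Good.cmul _ (good_stretch hg)) ht,
    In_cmul, In_cmul, In_cmul, In_cmul, i3, i4]
  ring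

end H319NS
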