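import Pool.Agent.H319R3.NS.C

/-!
# The differential inequality and Gronwall
-/

namespace H319NS

open MeasureTheory Set Filter Topology
open scoped ContDiff

variable {a b ν : ℝ}

lemma amgm {ν : ℝ} (hν : 0 < ν) (m S G : ℝ) (hS : 0 ≤ S) (hG : 0 ≤ G) :
    m * √S * √G ≤ ν * G + m ^ 2 / (4 * ν) * S := by
  have h1 : √S ^ 2 = S := Real.sq_sqrt hS
  have h2 : √G ^ 2 = G := Real.sq_sqrt hG
  have h3 : ν * G + m ^ 2 / (4 * ν) * S - m * √S * √G
      = (2 * ν * √G - m * √S) ^ 2 / (4 * ν) := by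
    field_simp
    nlinarith [h1, h2]
  have h4 : 0 ≤ (2 * ν * √G - m * √S) ^ 2 / (4 * ν) := by positivity
  linarith

lemma SS_nonneg (u : Fin 3 → V → ℝ) (z : V) : 0 ≤ SS u z :=
  Finset.sum_nonneg (fun _ _ => sq_nonneg _)

lemma GG_nonneg (u : Fin 3 → V → ℝ) (z : V) : 0 ≤ GG u z :=
  Finset.sum_nonneg (fun _ _ => Finset.sum_nonneg (fun _ _ => sq_nonneg _))

lemma In_SS_nonneg (u : Fin 3 → V → ℝ) (t : ℝ) : 0 ≤ In (SS u) t :=
  setIntegral_nonneg measurableSet_Icc (fun x _ => SS_nonneg u (x, t))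

/-- the differential inequality at one time -/
lemma deriv_le {u : Fin 3 → V → ℝ} {p : V → ℝ} (hν : 0 < ν) (h : IsNS ν a b u p)
    {t : ℝ} (ht : t ∈ Ioo a b) {m n : ℝ}
    (hc : ∃ (w : Fin 3 → (Fin 3 → ℝ) → ℝ) (κ : (Fin 3 → ℝ) → ℝ),
      (∀ i, SmoothPer (w i)) ∧ SmoothPer κ ∧
      ∀ x, crit u w κ x t ≤ m * √(SS u (x, t)) * √(GG u (x, t)) + n * SS u (x, t)) :
    -(2 * ν) * In (GG u) t + 2 * In (stretch u) t ≤ (m ^ 2 / (2 * ν) + 2 * n) * In (SS u) t := by
  obtain ⟨w, κ, hw, hκ, hc⟩ := hc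
  have hg := h.good_u
  have h1 := In_stretch h hw hκ ht
  have h2 : In (critF u w κ) t
      ≤ In (fun z => ν * GG u z + (m ^ 2 / (4 * ν) + n) * SS u z) t := by
    refine In_mono (good_critF hg hw hκ)
      ((Good.cmul _ (good_GG hg)).add (Good.cmul _ (good_SS hg))) ht (fun x _ => ?_)
    rw [critF_eq hw hκ]
    have h3 := hc x
    have h4 := amgm hν m (SS u (x, t)) (GG u (x, t)) (SS_nonneg _ _) (GG_nonneg _ _)
    linarith
  rw [In_add (Good.cmul _ (good_GG hg)) (Good.cmul _ (good_SS hg)) ht, In_cmul, In_cmul] at h2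
  have h5 : m ^ 2 / (2 * ν) = 2 * (m ^ 2 / (4 * ν)) := by
    field_simp
    ring
  rw [h1, h5]
  linarith

lemma gron_pos {Y Y' G : ℝ → ℝ} {t0 t : ℝ} (h : t0 ≤ t)
    (hd : ∀ s ∈ Icc t0 t, HasDerivAt Y (Y' s) s) (hcont : ContinuousOn Y' (Icc t0 t))
    (hpos : ∀ s ∈ Icc t0 t, 0 < Y s) (hG : IntervalIntegrable G volume t0 t)
    (hle : ∀ s ∈ Icc t0 t, Y' s ≤ G s * Y s) :
    Y t ≤ Y t0 * Real.exp (∫ s in t0..t, G s) := by
  have hu : uIcc t0 t = Icc t0 t := uIcc_of_le h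
  have hYc : ContinuousOn Y (Icc t0 t) := fun s hs => (hd s hs).continuousAt.continuousWithinAt
  have hq : ContinuousOn (fun s => Y' s / Y s) (uIcc t0 t) := by
    rw [hu]
    exact hcont.div hYc (fun s hs => (hpos s hs).ne')
  have hii : IntervalIntegrable (fun s => Y' s / Y s) volume t0 t := hq.intervalIntegrable
  have hF : ∫ s in t0..t, Y' s / Y s = Real.log (Y t) - Real.log (Y t0) := by
    refine intervalIntegral.integral_eq_sub_of_hasDerivAt (f := fun s => Real.log (Y s)) ?_ hii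
    intro s hs
    rw [hu] at hs
    exact (hd s hs).log (hpos s hs).ne'
  have hmono : ∫ s in t0..t, Y' s / Y s ≤ ∫ s in t0..t, G s := by
    refine intervalIntegral.integral_mono_on h hii hG (fun s hs => ?_)
    rw [div_le_iff₀ (hpos s hs)]
    exact hle s hs
  rw [hF] at hmono
  have p1 := hpos t (right_mem_Icc.2 h)
  have p0 := hpos t0 (left_mem_Icc.2 h)
  have : Real.log (Y t) ≤ Real.log (Y t0) + ∫ s in t0..t, G s := by linarith
  calc Y t = Real.exp (Real.log (Y t)) := (Real.exp_log p1).symm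
    _ ≤ Real.exp (Real.log (Y t0) + ∫ s in t0..t, G s) := Real.exp_le_exp.2 this
    _ = Y t0 * Real.exp (∫ s in t0..t, G s) := by rw [Real.exp_add, Real.exp_log p0]

lemma gron {y y' g : ℝ → ℝ} {t0 t : ℝ} (h : t0 ≤ t)
    (hd : ∀ s ∈ Icc t0 t, HasDerivAt y (y' s) s) (hcont : ContinuousOn y' (Icc t0 t))
    (hpos : ∀ s ∈ Icc t0 t, 0 ≤ y s) (hg : IntervalIntegrable g volume t0 t)
    (hle : ∀ s ∈ Icc t0 t, y' s ≤ g s * y s) :
    y t ≤ y t0 * Real.exp (∫ s in t0..t, g s) := by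
  by_cases hz : ∃ s ∈ Icc t0 t, y s = 0
  · obtain ⟨s, hs, hs0⟩ := hz
    have hsub : Icc s t ⊆ Icc t0 t := Icc_subset_Icc_left hs.1
    have hgi : IntervalIntegrable (fun r => |g r|) volume s t := by
      refine hg.abs.mono_set ?_
      rw [uIcc_of_le hs.2, uIcc_of_le h]
      exact hsub
    have key : ∀ ε : ℝ, 0 < ε → y t + ε ≤ ε * Real.exp (∫ r in s..t, |g r|) := by
      intro ε hε
      have := gron_pos (Y := fun r => y r + ε) (Y' := y') (G := fun r => |g r|) hs.2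
        (fun r hr => (hd r (hsub hr)).add_const ε) (hcont.mono hsub)
        (fun r hr => by
          have := hpos r (hsub hr)
          show 0 < y r + ε
          linarith) hgi
        (fun r hr => by
          have h1 := hle r (hsub hr)
          have h2 := hpos r (hsub hr)
          have h3 : g r * y r ≤ |g r| * y r := mul_le_mul_of_nonneg_right (le_abs_self _) h2
          have h4 : 0 ≤ |g r| * ε := by positivity
          show y' r ≤ |g r| * (y r + ε)
          linarith [mul_add |g r| (y r) ε])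
      simpa [hs0] using this
    have hy : y t ≤ 0 := by
      by_contra hcon
      push Not at hcon
      set E := Real.exp (∫ r in s..t, |g r|) with hE
      have hEpos : 0 < E := Real.exp_pos _
      have := key (y t / (2 * E)) (by positivity)
      have h2 : y t / (2 * E) * E = y t / 2 := by field_simp
      rw [h2] at this
      have h3 : 0 < y t / (2 * E) := by positivity
      linarith
    have h0 := hpos t0 (left_mem_Icc.2 h)
    exact hy.trans (by positivity)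
  · push Not at hz
    exact gron_pos h hd hcont (fun s hs => lt_of_le_of_ne (hpos s hs) (Ne.symm (hz s hs))) hg hle

/-- the enstrophy inequality on `[t0,t]` -/
theorem main_ineq {u : Fin 3 → V → ℝ} {p : V → ℝ} (hν : 0 < ν) (h : IsNS ν a b u p)
    {t0 t : ℝ} (h0 : a < t0) (h01 : t0 ≤ t) (h1 : t < b) {m n : ℝ → ℝ}
    (hm : IntervalIntegrable (fun s => m s ^ 2) volume t0 t)
    (hn : IntervalIntegrable n volume t0 t)
    (hc : ∀ s ∈ Icc t0 t, ∃ (w : Fin 3 → (Fin 3 → ℝ) → ℝ) (κ : (Fin 3 → ℝ) → ℝ),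
      (∀ i, SmoothPer (w i)) ∧ SmoothPer κ ∧
      ∀ x, crit u w κ x s ≤ m s * √(SS u (x, s)) * √(GG u (x, s)) + n s * SS u (x, s)) :
    In (SS u) t ≤ In (SS u) t0 * Real.exp (∫ s in t0..t, (m s ^ 2 / (2 * ν) + 2 * n s)) := by
  have hsub : Icc t0 t ⊆ Ioo a b := fun s hs => ⟨h0.trans_le hs.1, hs.2.trans_lt h1⟩
  have hg := h.good_u
  have hd1 : ∀ s ∈ Icc t0 t, HasDerivAt (In (SS u)) (In (pd et (SS u)) s) s :=
    fun s hs => hasDerivAt_In (good_SS hg) (hsub hs)
  have hd2 : ∀ s ∈ Icc t0 t, In (pd et (SS u)) s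
      = -(2 * ν) * In (GG u) s + 2 * In (stretch u) s :=
    fun s hs => (hd1 s hs).unique (hasDerivAt_enstrophy h (hsub hs))
  refine gron h01 hd1 ?_ (fun s _ => In_SS_nonneg u s) ?_ ?_
  · intro s hs
    exact (hasDerivAt_In ((good_SS hg).pd et) (hsub hs)).continuousAt.continuousWithinAt
  · exact (hm.div_const _).add (hn.const_mul _)
  · intro s hs
    rw [hd2 s hs]
    exact deriv_le hν h (hsub hs) (hc s hs)

theorem main_bound {u : Fin 3 → V → ℝ} {p : V → ℝ} (hν : 0 < ν) (h : IsNS ν a b u p)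
    {t0 : ℝ} (h0 : a < t0) {m n : ℝ → ℝ}
    (hm : IntegrableOn (fun s => m s ^ 2) (Ico t0 b))
    (hn : IntegrableOn n (Ico t0 b))
    (hc : ∀ s ∈ Ico t0 b, ∃ (w : Fin 3 → (Fin 3 → ℝ) → ℝ) (κ : (Fin 3 → ℝ) → ℝ),
      (∀ i, SmoothPer (w i)) ∧ SmoothPer κ ∧
      ∀ x, crit u w κ x s ≤ m s * √(SS u (x, s)) * √(GG u (x, s)) + n s * SS u (x, s)) :
    ∀ t ∈ Ico t0 b, In (SS u) t
      ≤ In (SS u) t0 * Real.exp (∫ s in Ico t0 b, |m s ^ 2 / (2 * ν) + 2 * n s|) := by
  intro t ht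
  have hsub : Icc t0 t ⊆ Ico t0 b := fun s hs => ⟨hs.1, hs.2.trans_lt ht.2⟩
  have hsub2 : Ioc t0 t ⊆ Ico t0 b := Ioc_subset_Icc_self.trans hsub
  have hm' : IntervalIntegrable (fun s => m s ^ 2) volume t0 t :=
    (intervalIntegrable_iff_integrableOn_Ioc_of_le ht.1).2 (hm.mono_set hsub2)
  have hn' : IntervalIntegrable n volume t0 t :=
    (intervalIntegrable_iff_integrableOn_Ioc_of_le ht.1).2 (hn.mono_set hsub2)
  have h1 := main_ineq hν h h0 ht.1 ht.2 hm' hn' (fun s hs => hc s (hsub hs))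
  refine h1.trans (mul_le_mul_of_nonneg_left (Real.exp_le_exp.2 ?_) (In_SS_nonneg u t0))
  have hG : IntegrableOn (fun s => m s ^ 2 / (2 * ν) + 2 * n s) (Ico t0 b) :=
    (hm.div_const _).add (hn.const_mul _)
  rw [intervalIntegral.integral_of_le ht.1]
  calc ∫ s in Ioc t0 t, (m s ^ 2 / (2 * ν) + 2 * n s)
      ≤ ∫ s in Ioc t0 t, |m s ^ 2 / (2 * ν) + 2 * n s| :=
        integral_mono (hG.mono_set hsub2) (hG.mono_set hsub2).abs (fun s => le_abs_self _)
    _ ≤ ∫ s in Ico t0 b, |m s ^ 2 / (2 * ν) + 2 * n s| :=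
        setIntegral_mono_set hG.abs (Eventually.of_forall (fun s => abs_nonneg _))
          (Eventually.of_forall hsub2)

end H319NS
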