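import Pool.Agent.H319R3.NS.D

/-!
# Logarithmically improved version, with the gradient quantities `|∇ω|² − λ tr((∇ω)²)`
-/

namespace H319NS

open MeasureTheory Set Filter Topology
open scoped ContDiff

variable {a b ν : ℝ}

/-- `|∇ω|² − λ tr((∇ω)²)`: for `λ = 0` this is `|∇ω|²`, for `λ = 1` it is `|curl ω|²` and for
`λ = -1` it is `2 |sym ∇ω|²`. -/
noncomputable def GC (u : Fin 3 → V → ℝ) (lam : ℝ) (z : V) : ℝ :=
  ∑ i, ∑ j, (pd (ex j) (vort u i) z ^ 2
    - lam * (pd (ex j) (vort u i) z * pd (ex i) (vort u j) z))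

lemma GC_one (u : Fin 3 → V → ℝ) (z : V) :
    GC u 1 z = (pd (ex 1) (vort u 2) z - pd (ex 2) (vort u 1) z) ^ 2
      + (pd (ex 2) (vort u 0) z - pd (ex 0) (vort u 2) z) ^ 2
      + (pd (ex 0) (vort u 1) z - pd (ex 1) (vort u 0) z) ^ 2 := by
  unfold GC
  simp only [Fin.sum_univ_three]
  ring

lemma GC_nonneg (u : Fin 3 → V → ℝ) {lam : ℝ} (hl : |lam| ≤ 1) (z : V) : 0 ≤ GC u lam z := by
  have h2 : ∀ x y : ℝ, 0 ≤ x ^ 2 + y ^ 2 - 2 * lam * (x * y) := by
    intro x y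
    have h3 : lam * (x * y) ≤ |x * y| := by
      calc lam * (x * y) ≤ |lam * (x * y)| := le_abs_self _
        _ = |lam| * |x * y| := abs_mul _ _
        _ ≤ 1 * |x * y| := mul_le_mul_of_nonneg_right hl (abs_nonneg _)
        _ = |x * y| := one_mul _
    have h4 : 2 * |x * y| ≤ x ^ 2 + y ^ 2 := by
      rw [abs_mul]
      nlinarith [sq_nonneg (|x| - |y|), sq_abs x, sq_abs y]
    nlinarith
  have e : GC u lam z = (1 / 2) * ∑ i, ∑ j, (pd (ex j) (vort u i) z ^ 2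
      + pd (ex i) (vort u j) z ^ 2
      - 2 * lam * (pd (ex j) (vort u i) z * pd (ex i) (vort u j) z)) := by
    unfold GC
    simp only [Fin.sum_univ_three]
    ring
  rw [e]
  have : 0 ≤ ∑ i, ∑ j, (pd (ex j) (vort u i) z ^ 2 + pd (ex i) (vort u j) z ^ 2
      - 2 * lam * (pd (ex j) (vort u i) z * pd (ex i) (vort u j) z)) :=
    Finset.sum_nonneg (fun i _ => Finset.sum_nonneg (fun j _ => h2 _ _))
  linarith

lemma good_tr {u : Fin 3 → V → ℝ} (hg : ∀ i, Good a b (u i)) :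
    Good a b (fun z => ∑ i, ∑ j, pd (ex j) (vort u i) z * pd (ex i) (vort u j) z) :=
  Good.sum (fun i => Good.sum (f := fun j z => pd (ex j) (vort u i) z * pd (ex i) (vort u j) z)
    (fun j => ((good_vort hg i).pd _).mul ((good_vort hg j).pd _)))

lemma In_tr {u : Fin 3 → V → ℝ} (hg : ∀ i, Good a b (u i)) {t : ℝ} (ht : t ∈ Ioo a b) :
    In (fun z => ∑ i, ∑ j, pd (ex j) (vort u i) z * pd (ex i) (vort u j) z) t = 0 := by
  have hW := good_vort hg
  let F : Fin 3 → Fin 3 → V → ℝ := fun i j z => vort u i z * pd (ex i) (vort u j) z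
  have hF : ∀ i j, Good a b (F i j) := fun i j => (hW i).mul ((hW j).pd _)
  have hF0 : In (fun z => ∑ i, ∑ j, pd (ex j) (F i j) z) t = 0 := by
    rw [In_sum (f := fun i z => ∑ j, pd (ex j) (F i j) z)
      (fun i => Good.sum (f := fun j z => pd (ex j) (F i j) z) (fun j => (hF i j).pd _)) ht]
    refine Finset.sum_eq_zero (fun i _ => ?_)
    rw [In_sum (f := fun j z => pd (ex j) (F i j) z) (fun j => (hF i j).pd _) ht]
    exact Finset.sum_eq_zero (fun j _ => In_pd_ex (hF i j) j ht)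
  rw [← hF0]
  refine In_congr (fun x _ => ?_)
  have hz : ((x, t) : V) ∈ Slab a b := ht
  have e1 : ∀ i j, pd (ex j) (F i j) (x, t)
      = pd (ex j) (vort u i) (x, t) * pd (ex i) (vort u j) (x, t)
        + vort u i (x, t) * pd (ex i) (pd (ex j) (vort u j)) (x, t) := by
    intro i j
    rw [show F i j = fun z => vort u i z * pd (ex i) (vort u j) z from rfl,
      pd_mul (hW i) ((hW j).pd _) _ hz, pd_comm (hW j) (ex j) (ex i) hz]
  have e2 : ∀ i, ∑ j, pd (ex i) (pd (ex j) (vort u j)) (x, t) = 0 := by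
    intro i
    rw [← pd_sum (f := fun j => pd (ex j) (vort u j)) (fun j => (hW j).pd _) (ex i) hz]
    rw [pd_congr (g := fun _ => (0 : ℝ)) (ex i) hz (fun y hy => div_vort hg hy)]
    unfold pd
    simp
  simp only [e1, Finset.sum_add_distrib, ← Finset.mul_sum, e2]
  simp

lemma In_GC {u : Fin 3 → V → ℝ} (hg : ∀ i, Good a b (u i)) (lam : ℝ) {t : ℝ}
    (ht : t ∈ Ioo a b) : In (GC u lam) t = In (GG u) t := by
  have e : In (GC u lam) t = In (fun z => GG u z
      - lam * (∑ i, ∑ j, pd (ex j) (vort u i) z * pd (ex i) (vort u j) z)) t := by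
    refine In_congr (fun x _ => ?_)
    unfold GC GG
    simp only [Fin.sum_univ_three]
    ring
  rw [e, In_sub (good_GG hg) (Good.cmul _ (good_tr hg)) ht, In_cmul, In_tr hg ht]
  ring

lemma good_GC {u : Fin 3 → V → ℝ} (hg : ∀ i, Good a b (u i)) (lam : ℝ) :
    Good a b (GC u lam) :=
  Good.sum (fun i => Good.sum (f := fun j z => pd (ex j) (vort u i) z ^ 2
    - lam * (pd (ex j) (vort u i) z * pd (ex i) (vort u j) z))
    (fun j => (good_sq ((good_vort hg i).pd _)).sub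
      (Good.cmul _ (((good_vort hg i).pd _).mul ((good_vort hg j).pd _)))))

/-- the differential inequality at one time -/
lemma deriv_le' {u : Fin 3 → V → ℝ} {p : V → ℝ} (hν : 0 < ν) (h : IsNS ν a b u p)
    {t : ℝ} (ht : t ∈ Ioo a b) {m n lam : ℝ} (hl : |lam| ≤ 1)
    {w : Fin 3 → (Fin 3 → ℝ) → ℝ} {κ : (Fin 3 → ℝ) → ℝ}
    (hw : ∀ i, SmoothPer (w i)) (hκ : SmoothPer κ)
    (hc : ∀ x, crit u w κ x t ≤ m * √(SS u (x, t)) * √(GC u lam (x, t)) + n * SS u (x, t)) :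
    -(2 * ν) * In (GG u) t + 2 * In (stretch u) t ≤ (m ^ 2 / (2 * ν) + 2 * n) * In (SS u) t := by
  have hg := h.good_u
  have h1 := In_stretch h hw hκ ht
  have h2 : In (critF u w κ) t
      ≤ In (fun z => ν * GC u lam z + (m ^ 2 / (4 * ν) + n) * SS u z) t := by
    refine In_mono (good_critF hg hw hκ)
      ((Good.cmul _ (good_GC hg lam)).add (Good.cmul _ (good_SS hg))) ht (fun x _ => ?_)
    rw [critF_eq hw hκ]
    have h3 := hc x
    have h4 := amgm hν m (SS u (x, t)) (GC u lam (x, t)) (SS_nonneg _ _) (GC_nonneg _ hl _)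
    linarith
  rw [In_add (Good.cmul _ (good_GC hg lam)) (Good.cmul _ (good_SS hg)) ht, In_cmul, In_cmul,
    In_GC hg lam ht] at h2
  have h5 : m ^ 2 / (2 * ν) = 2 * (m ^ 2 / (4 * ν)) := by
    field_simp
    ring
  rw [h1, h5]
  linarith

lemma gron_log {y y' g : ℝ → ℝ} {t0 t : ℝ} (h : t0 ≤ t)
    (hd : ∀ s ∈ Icc t0 t, HasDerivAt y (y' s) s) (hcont : ContinuousOn y' (Icc t0 t))
    (hpos : ∀ s ∈ Icc t0 t, 0 ≤ y s) (hg : IntervalIntegrable g volume t0 t)
    (hle : ∀ s ∈ Icc t0 t, y' s ≤ (g s * Real.log (Real.exp 1 + y s)) * y s)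
    (hg0 : ∀ s ∈ Icc t0 t, 0 ≤ g s) :
    Real.log (Real.exp 1 + y t)
      ≤ Real.log (Real.exp 1 + y t0) * Real.exp (∫ s in t0..t, g s) := by
  have hyc : ContinuousOn y (Icc t0 t) := fun s hs => (hd s hs).continuousAt.continuousWithinAt
  have hE : 0 < Real.exp 1 := Real.exp_pos 1
  have hne : ∀ s ∈ Icc t0 t, 0 < Real.exp 1 + y s := fun s hs => by
    have := hpos s hs
    linarith
  have hlog : ∀ s ∈ Icc t0 t, 1 ≤ Real.log (Real.exp 1 + y s) := by
    intro s hs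
    rw [Real.le_log_iff_exp_le (hne s hs)]
    have := hpos s hs
    linarith
  refine gron_pos (Y := fun s => Real.log (Real.exp 1 + y s))
    (Y' := fun s => y' s / (Real.exp 1 + y s)) h ?_ ?_ ?_ hg ?_
  · intro s hs
    exact ((hd s hs).const_add (Real.exp 1)).log (hne s hs).ne'
  · exact hcont.div (continuousOn_const.add hyc) (fun s hs => (hne s hs).ne')
  · intro s hs
    exact lt_of_lt_of_le one_pos (hlog s hs)
  · intro s hs
    show y' s / (Real.exp 1 + y s) ≤ g s * Real.log (Real.exp 1 + y s)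
    rw [div_le_iff₀ (hne s hs)]
    refine (hle s hs).trans ?_
    refine mul_le_mul_of_nonneg_left (by linarith) ?_
    exact mul_nonneg (hg0 s hs) (zero_le_one.trans (hlog s hs))

/-- the enstrophy inequality on `[t0,t]` -/
theorem main_log {u : Fin 3 → V → ℝ} {p : V → ℝ} (hν : 0 < ν) (h : IsNS ν a b u p)
    {t0 t : ℝ} (h0 : a < t0) (h01 : t0 ≤ t) (h1 : t < b) {g : ℝ → ℝ}
    (hg : IntervalIntegrable g volume t0 t) (hg0 : ∀ s ∈ Icc t0 t, 0 ≤ g s)
    (hc : ∀ s ∈ Icc t0 t, ∃ (w : Fin 3 → (Fin 3 → ℝ) → ℝ) (κ : (Fin 3 → ℝ) → ℝ) (lam m n : ℝ),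
      (∀ i, SmoothPer (w i)) ∧ SmoothPer κ ∧ |lam| ≤ 1 ∧
      m ^ 2 / (2 * ν) + 2 * n ≤ g s * Real.log (Real.exp 1 + In (SS u) s) ∧
      ∀ x, crit u w κ x s ≤ m * √(SS u (x, s)) * √(GC u lam (x, s)) + n * SS u (x, s)) :
    Real.log (Real.exp 1 + In (SS u) t)
      ≤ Real.log (Real.exp 1 + In (SS u) t0) * Real.exp (∫ s in t0..t, g s) := by
  have hsub : Icc t0 t ⊆ Ioo a b := fun s hs => ⟨h0.trans_le hs.1, hs.2.trans_lt h1⟩
  have hgd := h.good_u
  have hd1 : ∀ s ∈ Icc t0 t, HasDerivAt (In (SS u)) (In (pd et (SS u)) s) s :=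
    fun s hs => hasDerivAt_In (good_SS hgd) (hsub hs)
  have hd2 : ∀ s ∈ Icc t0 t, In (pd et (SS u)) s
      = -(2 * ν) * In (GG u) s + 2 * In (stretch u) s :=
    fun s hs => (hd1 s hs).unique (hasDerivAt_enstrophy h (hsub hs))
  refine gron_log h01 hd1 ?_ (fun s _ => In_SS_nonneg u s) hg ?_ hg0
  · intro s hs
    exact (hasDerivAt_In ((good_SS hgd).pd et) (hsub hs)).continuousAt.continuousWithinAt
  · intro s hs
    rw [hd2 s hs]
    obtain ⟨w, κ, lam, m, n, hw, hκ, hl, hmn, hcr⟩ := hc s hs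
    exact (deriv_le' hν h (hsub hs) hl hw hκ hcr).trans
      (mul_le_mul_of_nonneg_right hmn (In_SS_nonneg u s))

end H319NS
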