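import Mathlib

/-!
# A Sobolev inequality on the unit cube of `ℝ³`
-/

namespace H319NS

open MeasureTheory Set Filter Topology
open scoped ContDiff ENNReal

lemma one_dim {f f' H : ℝ → ℝ} (hf : ∀ s, HasDerivAt f (f' s) s) (hc : Continuous f')
    (hH : Continuous H) (hle : ∀ s ∈ Icc (0 : ℝ) 1, |f s| + |f' s| ≤ H s) {r : ℝ}
    (hr : r ∈ Icc (0 : ℝ) 1) : |f r| ≤ ∫ s in Icc (0 : ℝ) 1, H s := by
  have hfc : Continuous f := continuous_iff_continuousAt.2 (fun s => (hf s).continuousAt)
  have h1 : ∀ s ∈ Icc (0 : ℝ) 1, |f r| ≤ |f s| + ∫ τ in Icc (0 : ℝ) 1, |f' τ| := by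
    intro s hs
    have h2 : ∫ τ in s..r, f' τ = f r - f s :=
      intervalIntegral.integral_eq_sub_of_hasDerivAt (fun τ _ => hf τ)
        (hc.intervalIntegrable _ _)
    have h3 : |∫ τ in s..r, f' τ| ≤ ∫ τ in Icc (0 : ℝ) 1, |f' τ| := by
      have h4 : ‖∫ τ in s..r, f' τ‖ ≤ ∫ τ in uIoc s r, ‖f' τ‖ :=
        intervalIntegral.norm_integral_le_integral_norm_uIoc
      refine h4.trans ?_
      refine setIntegral_mono_set (hc.abs.continuousOn.integrableOn_compact isCompact_Icc)
        (Eventually.of_forall (fun τ => abs_nonneg _)) (Eventually.of_forall ?_)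
      intro τ hτ
      have hs' := hs
      rcases le_total s r with h | h
      · rw [uIoc_of_le h] at hτ
        exact ⟨hs.1.trans hτ.1.le, hτ.2.trans hr.2⟩
      · rw [uIoc_of_ge h] at hτ
        exact ⟨hr.1.trans hτ.1.le, hτ.2.trans hs.2⟩
    have h5 : f r = f s + ∫ τ in s..r, f' τ := by rw [h2]; ring
    calc |f r| = |f s + ∫ τ in s..r, f' τ| := by rw [← h5]
      _ ≤ |f s| + |∫ τ in s..r, f' τ| := abs_add_le _ _
      _ ≤ _ := by linarith
  have hv : (volume : Measure ℝ).real (Icc 0 1) = 1 := by simp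
  have h6 : |f r| = ∫ s in Icc (0 : ℝ) 1, |f r| := by
    rw [setIntegral_const, hv]; simp
  have i1 : IntegrableOn (fun s => |f s|) (Icc (0 : ℝ) 1) :=
    hfc.abs.continuousOn.integrableOn_compact isCompact_Icc
  have i2 : IntegrableOn (fun s => |f' s|) (Icc (0 : ℝ) 1) :=
    hc.abs.continuousOn.integrableOn_compact isCompact_Icc
  have i3 : IntegrableOn H (Icc (0 : ℝ) 1) :=
    hH.continuousOn.integrableOn_compact isCompact_Icc
  have i4 : IntegrableOn (fun _ : ℝ => ∫ τ in Icc (0 : ℝ) 1, |f' τ|) (Icc (0 : ℝ) 1) :=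
    integrableOn_const (by simp)
  have i5 : IntegrableOn (fun _ : ℝ => |f r|) (Icc (0 : ℝ) 1) :=
    integrableOn_const (by simp)
  calc |f r| = ∫ s in Icc (0 : ℝ) 1, |f r| := h6
    _ ≤ ∫ s in Icc (0 : ℝ) 1, (|f s| + ∫ τ in Icc (0 : ℝ) 1, |f' τ|) :=
        setIntegral_mono_on i5 (i1.add i4) measurableSet_Icc h1
    _ = (∫ s in Icc (0 : ℝ) 1, |f s|) + ∫ τ in Icc (0 : ℝ) 1, |f' τ| := by
        rw [integral_add i1 i4, setIntegral_const, hv]; simp
    _ = ∫ s in Icc (0 : ℝ) 1, (|f s| + |f' s|) := by rw [integral_add i1 i2]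
    _ ≤ ∫ s in Icc (0 : ℝ) 1, H s := setIntegral_mono_on (i1.add i2) i3 measurableSet_Icc hle

lemma pi_restrict_cube :
    Measure.pi (fun _ : Fin 3 => (volume : Measure ℝ).restrict (Icc 0 1))
      = (volume : Measure (Fin 3 → ℝ)).restrict (Icc 0 1) := by
  rw [← Measure.restrict_pi_pi, volume_pi]
  congr 1
  ext x
  simp [Pi.le_def]

/-- Sobolev inequality on the unit cube. -/
lemma sobolev_cube {S h : (Fin 3 → ℝ) → ℝ} (hS0 : ∀ x, 0 ≤ S x) (hS : ContDiff ℝ 1 S)
    (hcont : Continuous h)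
    (hle : ∀ x i, S x ^ 2 + |2 * S x * fderiv ℝ S x (Pi.single i 1)| ≤ h x) :
    ∫ x in Icc (0 : Fin 3 → ℝ) 1, S x ^ 3 ≤ (∫ x in Icc (0 : Fin 3 → ℝ) 1, h x) ^ (3 / 2 : ℝ) := by
  have hh0 : ∀ x, 0 ≤ h x := fun x => by
    have := hle x 0
    have h2 := abs_nonneg (2 * S x * fderiv ℝ S x (Pi.single 0 1))
    have h3 := sq_nonneg (S x)
    linarith
  have hSc : Continuous S := hS.continuous
  have hmeas : Measurable (fun x => ENNReal.ofReal (h x)) := hcont.measurable.ennreal_ofReal
  have hconj : Real.HolderConjugate (Fintype.card (Fin 3)) (3 / 2) := by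
    rw [Real.holderConjugate_iff]
    constructor <;> norm_num
  have grid := lintegral_prod_lintegral_pow_le
    (μ := fun _ : Fin 3 => (volume : Measure ℝ).restrict (Icc 0 1)) hconj hmeas
  rw [pi_restrict_cube] at grid
  -- the pointwise inequality
  have key : ∀ x ∈ Icc (0 : Fin 3 → ℝ) 1, ∀ i : Fin 3,
      ENNReal.ofReal (S x ^ 2) ≤ ∫⁻ s in Icc (0 : ℝ) 1, ENNReal.ofReal (h (Function.update x i s)) := by
    intro x hx i
    have hup : ∀ s : ℝ, HasDerivAt (fun s => Function.update x i s) (Pi.single i (1 : ℝ)) s :=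
      fun s => hasDerivAt_update x i s
    have hupc : Continuous (fun s : ℝ => Function.update x i s) :=
      continuous_const.update i continuous_id
    have hd : ∀ s, HasDerivAt (fun s => S (Function.update x i s) ^ 2)
        (2 * S (Function.update x i s) *
          fderiv ℝ S (Function.update x i s) (Pi.single i 1)) s := by
      intro s
      have h1 : HasFDerivAt S (fderiv ℝ S (Function.update x i s)) (Function.update x i s) :=
        (hS.differentiable (by norm_num) _).hasFDerivAt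
      have h2 : HasDerivAt (fun s => S (Function.update x i s))
          (fderiv ℝ S (Function.update x i s) (Pi.single i 1)) s :=
        h1.comp_hasDerivAt s (hup s)
      exact (h2.fun_pow 2).congr_deriv (by simp)
    have hdc : Continuous (fun s => 2 * S (Function.update x i s) *
          fderiv ℝ S (Function.update x i s) (Pi.single i 1)) := by
      have h1 : Continuous (fun y => fderiv ℝ S y (Pi.single i 1)) :=
        (hS.continuous_fderiv (by norm_num)).clm_apply continuous_const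
      exact (continuous_const.mul (hSc.comp hupc)).mul (h1.comp hupc)
    have h3 := one_dim (f := fun s => S (Function.update x i s) ^ 2) hd hdc
      (H := fun s => h (Function.update x i s)) (hcont.comp hupc)
      (fun s _ => by
        have := hle (Function.update x i s) i
        rw [abs_of_nonneg (sq_nonneg (S (Function.update x i s)))]
        exact this)
      (r := x i) ⟨hx.1 i, hx.2 i⟩
    simp only [Function.update_eq_self] at h3
    rw [abs_of_nonneg (sq_nonneg _)] at h3
    rw [← ofReal_integral_eq_lintegral_ofReal]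
    · exact ENNReal.ofReal_le_ofReal h3
    · exact (hcont.comp hupc).continuousOn.integrableOn_compact isCompact_Icc
    · exact Eventually.of_forall (fun s => hh0 _)
  have hI3 : IntegrableOn (fun x => S x ^ 3) (Icc (0 : Fin 3 → ℝ) 1) :=
    (hSc.pow 3).continuousOn.integrableOn_compact isCompact_Icc
  have hIh : IntegrableOn h (Icc (0 : Fin 3 → ℝ) 1) :=
    hcont.continuousOn.integrableOn_compact isCompact_Icc
  have lhs : ENNReal.ofReal (∫ x in Icc (0 : Fin 3 → ℝ) 1, S x ^ 3)
      ≤ ∫⁻ x in Icc (0 : Fin 3 → ℝ) 1, ∏ i : Fin 3,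
        (∫⁻ s in Icc (0 : ℝ) 1, ENNReal.ofReal (h (Function.update x i s)))
          ^ ((1 : ℝ) / ((Fintype.card (Fin 3) : ℕ) - 1 : ℝ)) := by
    rw [ofReal_integral_eq_lintegral_ofReal hI3
      (Eventually.of_forall (fun x => pow_nonneg (hS0 x) 3))]
    refine setLIntegral_mono' measurableSet_Icc (fun x hx => ?_)
    have e1 : ENNReal.ofReal (S x ^ 3) = ∏ _i : Fin 3,
        (ENNReal.ofReal (S x ^ 2)) ^ ((1 : ℝ) / ((Fintype.card (Fin 3) : ℕ) - 1 : ℝ)) := by
      rw [Finset.prod_const, ENNReal.ofReal_rpow_of_nonneg (sq_nonneg _) (by norm_num)]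
      have : (S x ^ 2) ^ ((1 : ℝ) / ((Fintype.card (Fin 3) : ℕ) - 1 : ℝ)) = S x := by
        have e : ((1 : ℝ) / ((Fintype.card (Fin 3) : ℕ) - 1 : ℝ)) = 1 / 2 := by norm_num
        rw [e, ← Real.sqrt_eq_rpow, Real.sqrt_sq (hS0 x)]
      rw [this, ← ENNReal.ofReal_pow (hS0 x)]
      simp
    rw [e1]
    refine Finset.prod_le_prod' (fun i _ => ?_)
    exact ENNReal.rpow_le_rpow (key x hx i) (by norm_num)
  have rhs : (∫⁻ x in Icc (0 : Fin 3 → ℝ) 1, ENNReal.ofReal (h x)) ^ (3 / 2 : ℝ)
      = ENNReal.ofReal ((∫ x in Icc (0 : Fin 3 → ℝ) 1, h x) ^ (3 / 2 : ℝ)) := by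
    rw [← ofReal_integral_eq_lintegral_ofReal hIh (Eventually.of_forall hh0),
      ENNReal.ofReal_rpow_of_nonneg (integral_nonneg hh0) (by norm_num)]
  have := lhs.trans grid
  rw [rhs] at this
  exact (ENNReal.ofReal_le_ofReal_iff
    (Real.rpow_nonneg (integral_nonneg hh0) _)).1 this

end H319NS
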