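import Pool.Agent.H319R3.NS.E
import Pool.Agent.H319R3.NS.F

/-!
# `y' ≤ K (1 + y)³` for the enstrophy, and the energy inequality
-/

namespace H319NS

open MeasureTheory Set Filter Topology
open scoped ContDiff

variable {a b ν : ℝ}

/-- Cauchy–Schwarz on the unit cube for continuous functions. -/
lemma cs_cube {f g : (Fin 3 → ℝ) → ℝ} (hf : Continuous f) (hg : Continuous g) :
    ∫ x in Q, f x * g x ≤ √(∫ x in Q, f x ^ 2) * √(∫ x in Q, g x ^ 2) := by
  have i1 : IntegrableOn (fun x => f x ^ 2) Q :=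
    (hf.pow 2).continuousOn.integrableOn_compact isCompact_Icc
  have i2 : IntegrableOn (fun x => g x ^ 2) Q :=
    (hg.pow 2).continuousOn.integrableOn_compact isCompact_Icc
  have i3 : IntegrableOn (fun x => f x * g x) Q :=
    (hf.mul hg).continuousOn.integrableOn_compact isCompact_Icc
  set A := ∫ x in Q, f x ^ 2
  set B := ∫ x in Q, g x ^ 2
  set C := ∫ x in Q, f x * g x
  have hA : 0 ≤ A := integral_nonneg (fun x => sq_nonneg _)
  have hB : 0 ≤ B := integral_nonneg (fun x => sq_nonneg _)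
  have hq : ∀ t : ℝ, 0 ≤ A * (t * t) + (-2 * C) * t + B := by
    intro t
    have h1 : A * (t * t) + (-2 * C) * t + B = ∫ x in Q, (t * f x - g x) ^ 2 := by
      have : ∀ x, (t * f x - g x) ^ 2 = (t * t) * f x ^ 2 + (-2 * t) * (f x * g x) + g x ^ 2 := by
        intro x; ring
      simp only [this]
      have j1 : Integrable (fun x => (t * t) * f x ^ 2) (volume.restrict Q) := i1.const_mul _
      have j2 : Integrable (fun x => (-2 * t) * (f x * g x)) (volume.restrict Q) :=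
        i3.const_mul _
      have j3 : Integrable (fun x => (t * t) * f x ^ 2 + (-2 * t) * (f x * g x))
        (volume.restrict Q) := j1.add j2
      rw [integral_add j3 i2, integral_add j1 j2, integral_const_mul, integral_const_mul]
      ring
    rw [h1]
    exact integral_nonneg (fun x => sq_nonneg _)
  have hd := discrim_le_zero hq
  rw [discrim] at hd
  have hCC : C ^ 2 ≤ A * B := by nlinarith
  rw [← Real.sqrt_mul hA]
  exact Real.le_sqrt_of_sq_le hCC

lemma sumsq_cs (p q : Fin 3 → ℝ) : |∑ l, p l * q l| ≤ √(∑ l, p l ^ 2) * √(∑ l, q l ^ 2) := by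
  rw [← Real.sqrt_mul (Finset.sum_nonneg (fun _ _ => sq_nonneg _)), ← Real.sqrt_sq_eq_abs]
  exact Real.sqrt_le_sqrt (Finset.sum_mul_sq_le_sq_mul_sq _ _ _)

/-- derivative of `|ω|²` -/
lemma pd_SS {u : Fin 3 → V → ℝ} (hg : ∀ i, Good a b (u i)) (v : V) {z : V} (hz : z ∈ Slab a b) :
    pd v (SS u) z = 2 * ∑ l, vort u l z * pd v (vort u l) z := by
  have hW := good_vort hg
  have e2 : pd v (SS u) z = ∑ l, pd v (fun z => vort u l z ^ 2) z :=
    pd_sum (f := fun l z => vort u l z ^ 2) (fun l => good_sq (hW l)) v hz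
  have e3 : ∀ l, pd v (fun z => vort u l z ^ 2) z = 2 * (vort u l z * pd v (vort u l) z) := by
    intro l
    have : (fun z => vort u l z ^ 2) = fun z => vort u l z * vort u l z := by
      funext z; ring
    rw [this, pd_mul (hW l) (hW l) _ hz]
    ring
  rw [e2]
  simp only [e3]
  rw [← Finset.mul_sum]

lemma SS_cont {u : Fin 3 → V → ℝ} (hg : ∀ i, Good a b (u i)) {t : ℝ} (ht : t ∈ Ioo a b) :
    Continuous (fun x : Fin 3 → ℝ => SS u (x, t)) := slice_cont (good_SS hg) ht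

lemma GG_cont {u : Fin 3 → V → ℝ} (hg : ∀ i, Good a b (u i)) {t : ℝ} (ht : t ∈ Ioo a b) :
    Continuous (fun x : Fin 3 → ℝ => GG u (x, t)) := slice_cont (good_GG hg) ht

/-- `‖ω‖₆² ≤ (‖ω‖₂ + 4 ‖∇ω‖₂)²`, in the form `√L ≤ B³`. -/
lemma sob_vort {u : Fin 3 → V → ℝ} (hg : ∀ i, Good a b (u i)) {t : ℝ} (ht : t ∈ Ioo a b) :
    √(∫ x in Q, SS u (x, t) ^ 3) ≤ (√(In (SS u) t) + 4 * √(In (GG u) t)) ^ 3 := by
  have hS0 : ∀ x, 0 ≤ SS u (x, t) := fun x => SS_nonneg u _
  have hG0 : ∀ x, 0 ≤ GG u (x, t) := fun x => GG_nonneg u _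
  have hSc := SS_cont hg ht
  have hGc := GG_cont hg ht
  have hsS : Continuous (fun x : Fin 3 → ℝ => √(SS u (x, t))) := hSc.sqrt
  have hsG : Continuous (fun x : Fin 3 → ℝ => √(GG u (x, t))) := hGc.sqrt
  let h : (Fin 3 → ℝ) → ℝ := fun x => √(SS u (x, t)) * (SS u (x, t) * √(SS u (x, t)))
    + 4 * ((SS u (x, t) * √(SS u (x, t))) * √(GG u (x, t)))
  have hc3 : Continuous (fun x : Fin 3 → ℝ => SS u (x, t) * √(SS u (x, t))) := hSc.mul hsS
  have hhc : Continuous h := (hsS.mul hc3).add (continuous_const.mul (hc3.mul hsG))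
  have hle : ∀ x i, SS u (x, t) ^ 2 + |2 * SS u (x, t) *
      fderiv ℝ (fun x => SS u (x, t)) x (Pi.single i 1)| ≤ h x := by
    intro x i
    have hz : ((x, t) : V) ∈ Slab a b := ht
    have e1 : fderiv ℝ (fun x => SS u (x, t)) x (Pi.single i 1) = pd (ex i) (SS u) (x, t) := by
      rw [(fderiv_slice (good_SS hg) ht x).fderiv]
      simp [pd, ex]
    rw [e1, pd_SS hg (ex i) hz]
    have e2 : |∑ l, vort u l (x, t) * pd (ex i) (vort u l) (x, t)|
        ≤ √(SS u (x, t)) * √(GG u (x, t)) := by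
      refine (sumsq_cs _ _).trans ?_
      refine mul_le_mul_of_nonneg_left (Real.sqrt_le_sqrt ?_) (Real.sqrt_nonneg _)
      unfold GG
      refine Finset.sum_le_sum (fun l _ => ?_)
      exact Finset.single_le_sum (f := fun j => pd (ex j) (vort u l) (x, t) ^ 2)
        (fun j _ => sq_nonneg _) (Finset.mem_univ i)
    have e3 : |2 * SS u (x, t) * (2 * ∑ l, vort u l (x, t) * pd (ex i) (vort u l) (x, t))|
        = 4 * SS u (x, t) * |∑ l, vort u l (x, t) * pd (ex i) (vort u l) (x, t)| := by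
      rw [show 2 * SS u (x, t) * (2 * ∑ l, vort u l (x, t) * pd (ex i) (vort u l) (x, t))
        = 4 * SS u (x, t) * ∑ l, vort u l (x, t) * pd (ex i) (vort u l) (x, t) by ring,
        abs_mul, abs_of_nonneg (by have := hS0 x; positivity)]
    rw [e3]
    have e4 : √(SS u (x, t)) * √(SS u (x, t)) = SS u (x, t) := Real.mul_self_sqrt (hS0 x)
    have e5 : h x = SS u (x, t) ^ 2 + 4 * SS u (x, t) * (√(SS u (x, t)) * √(GG u (x, t))) := by
      show √(SS u (x, t)) * (SS u (x, t) * √(SS u (x, t)))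
        + 4 * ((SS u (x, t) * √(SS u (x, t))) * √(GG u (x, t))) = _
      linear_combination (SS u (x, t)) * e4
    rw [e5]
    have : 0 ≤ 4 * SS u (x, t) := by have := hS0 x; positivity
    linarith [mul_le_mul_of_nonneg_left e2 this]
  have sob := sobolev_cube (S := fun x => SS u (x, t)) (h := h) hS0
    ((slice_contDiff (good_SS hg) ht).of_le (by simp)) hhc hle
  have hL0 : 0 ≤ ∫ x in Q, SS u (x, t) ^ 3 := integral_nonneg (fun x => pow_nonneg (hS0 x) 3)
  set L := ∫ x in Q, SS u (x, t) ^ 3 with hLdef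
  -- bound of the integral of `h`
  have e6 : ∀ x, (SS u (x, t) * √(SS u (x, t))) ^ 2 = SS u (x, t) ^ 3 := by
    intro x
    rw [mul_pow, Real.sq_sqrt (hS0 x)]
    ring
  have c1 := cs_cube hsS hc3
  have c2 := cs_cube hc3 hsG
  simp only [e6] at c1 c2
  have e7 : ∫ x in Q, √(SS u (x, t)) ^ 2 = In (SS u) t := by
    unfold In
    exact setIntegral_congr_fun measurableSet_Icc (fun x _ => Real.sq_sqrt (hS0 x))
  have e8 : ∫ x in Q, √(GG u (x, t)) ^ 2 = In (GG u) t := by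
    unfold In
    exact setIntegral_congr_fun measurableSet_Icc (fun x _ => Real.sq_sqrt (hG0 x))
  rw [e7] at c1
  rw [e8] at c2
  have i1 : IntegrableOn (fun x => √(SS u (x, t)) * (SS u (x, t) * √(SS u (x, t)))) Q :=
    (hsS.mul hc3).continuousOn.integrableOn_compact isCompact_Icc
  have i2 : IntegrableOn (fun x => 4 * ((SS u (x, t) * √(SS u (x, t))) * √(GG u (x, t)))) Q :=
    (continuous_const.mul (hc3.mul hsG)).continuousOn.integrableOn_compact isCompact_Icc
  have e9 : ∫ x in Q, h x ≤ √L * (√(In (SS u) t) + 4 * √(In (GG u) t)) := by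
    have : ∫ x in Q, h x = (∫ x in Q, √(SS u (x, t)) * (SS u (x, t) * √(SS u (x, t))))
        + 4 * ∫ x in Q, (SS u (x, t) * √(SS u (x, t))) * √(GG u (x, t)) := by
      show ∫ x in Q, (√(SS u (x, t)) * (SS u (x, t) * √(SS u (x, t)))
        + 4 * ((SS u (x, t) * √(SS u (x, t))) * √(GG u (x, t)))) = _
      rw [integral_add i1 i2, integral_const_mul]
    rw [this]
    linarith
  set B := √(In (SS u) t) + 4 * √(In (GG u) t) with hB
  have hB0 : 0 ≤ B := by positivity
  have hh0 : 0 ≤ ∫ x in Q, h x := integral_nonneg (fun x => by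
    have := hS0 x
    show 0 ≤ √(SS u (x, t)) * (SS u (x, t) * √(SS u (x, t)))
        + 4 * ((SS u (x, t) * √(SS u (x, t))) * √(GG u (x, t)))
    positivity)
  have f1 : L ≤ (√L * B) ^ (3 / 2 : ℝ) :=
    sob.trans (Real.rpow_le_rpow hh0 e9 (by norm_num))
  have f2 : L ^ 2 ≤ (√L * B) ^ 3 := by
    have hX : 0 ≤ √L * B := by positivity
    calc L ^ 2 ≤ ((√L * B) ^ (3 / 2 : ℝ)) ^ 2 := pow_le_pow_left₀ hL0 f1 2
      _ = (√L * B) ^ 3 := by
        rw [← Real.rpow_natCast, ← Real.rpow_mul hX, ← Real.rpow_natCast]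
        norm_num
  have f3 : √L ^ 2 = L := Real.sq_sqrt hL0
  by_cases hr : √L = 0
  · rw [hr]; positivity
  · have hrp : 0 < √L := lt_of_le_of_ne (Real.sqrt_nonneg _) (Ne.symm hr)
    have f4 : √L ^ 3 * √L ≤ √L ^ 3 * B ^ 3 := by
      calc √L ^ 3 * √L = (√L ^ 2) ^ 2 := by ring
        _ = L ^ 2 := by rw [f3]
        _ ≤ (√L * B) ^ 3 := f2
        _ = √L ^ 3 * B ^ 3 := by ring
    exact le_of_mul_le_mul_left f4 (by positivity)

/-- `∫ ∑ ∂_j v_i ∂_i v_j = 0` for divergence free `v` -/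
lemma In_tr' {v : Fin 3 → V → ℝ} (hv : ∀ i, Good a b (v i))
    (hdiv : ∀ z ∈ Slab a b, ∑ j, pd (ex j) (v j) z = 0) {t : ℝ} (ht : t ∈ Ioo a b) :
    In (fun z => ∑ i, ∑ j, pd (ex j) (v i) z * pd (ex i) (v j) z) t = 0 := by
  let F : Fin 3 → Fin 3 → V → ℝ := fun i j z => v i z * pd (ex i) (v j) z
  have hF : ∀ i j, Good a b (F i j) := fun i j => (hv i).mul ((hv j).pd _)
  have hF0 : In (fun z => ∑ i, ∑ j, pd (ex j) (F i j) z) t = 0 := by
    rw [In_sum (f := fun i z => ∑ j, pd (ex j) (F i j) z)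
      (fun i => Good.sum (f := fun j z => pd (ex j) (F i j) z) (fun j => (hF i j).pd _)) ht]
    refine Finset.sum_eq_zero (fun i _ => ?_)
    rw [In_sum (f := fun j z => pd (ex j) (F i j) z) (fun j => (hF i j).pd _) ht]
    exact Finset.sum_eq_zero (fun j _ => In_pd_ex (hF i j) j ht)
  rw [← hF0]
  refine In_congr (fun x _ => ?_)
  have hz : ((x, t) : V) ∈ Slab a b := ht
  have e1 : ∀ i j, pd (ex j) (F i j) (x, t)
      = pd (ex j) (v i) (x, t) * pd (ex i) (v j) (x, t)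
        + v i (x, t) * pd (ex i) (pd (ex j) (v j)) (x, t) := by
    intro i j
    rw [show F i j = fun z => v i z * pd (ex i) (v j) z from rfl,
      pd_mul (hv i) ((hv j).pd _) _ hz, pd_comm (hv j) (ex j) (ex i) hz]
  have e2 : ∀ i, ∑ j, pd (ex i) (pd (ex j) (v j)) (x, t) = 0 := by
    intro i
    rw [← pd_sum (f := fun j => pd (ex j) (v j)) (fun j => (hv j).pd _) (ex i) hz]
    rw [pd_congr (g := fun _ => (0 : ℝ)) (ex i) hz hdiv]
    unfold pd
    simp
  simp only [e1, Finset.sum_add_distrib, ← Finset.mul_sum, e2]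
  simp

/-- `|∇u|²` -/
noncomputable def DD (u : Fin 3 → V → ℝ) (z : V) : ℝ := ∑ i, ∑ j, pd (ex j) (u i) z ^ 2

/-- `|u|²` -/
noncomputable def UU (u : Fin 3 → V → ℝ) (z : V) : ℝ := ∑ i, u i z ^ 2

lemma good_DD {u : Fin 3 → V → ℝ} (hg : ∀ i, Good a b (u i)) : Good a b (DD u) :=
  Good.sum (fun i => Good.sum (f := fun j z => pd (ex j) (u i) z ^ 2)
    (fun j => good_sq ((hg i).pd _)))

lemma good_UU {u : Fin 3 → V → ℝ} (hg : ∀ i, Good a b (u i)) : Good a b (UU u) :=
  Good.sum (fun i => good_sq (hg i))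

lemma DD_nonneg (u : Fin 3 → V → ℝ) (z : V) : 0 ≤ DD u z :=
  Finset.sum_nonneg (fun _ _ => Finset.sum_nonneg (fun _ _ => sq_nonneg _))

lemma UU_nonneg (u : Fin 3 → V → ℝ) (z : V) : 0 ≤ UU u z :=
  Finset.sum_nonneg (fun _ _ => sq_nonneg _)

lemma In_DD {u : Fin 3 → V → ℝ} (hg : ∀ i, Good a b (u i))
    (hdiv : ∀ z ∈ Slab a b, ∑ j, pd (ex j) (u j) z = 0) {t : ℝ} (ht : t ∈ Ioo a b) :
    In (DD u) t = In (SS u) t := by
  have e : In (SS u) t = In (fun z => DD u z
      - (∑ i, ∑ j, pd (ex j) (u i) z * pd (ex i) (u j) z)) t := by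
    refine In_congr (fun x _ => ?_)
    unfold SS DD vort
    simp only [Fin.sum_univ_three]
    simp only [Fin.isValue, zero_add, Fin.reduceAdd]
    ring
  have g2 : Good a b (fun z => ∑ i, ∑ j, pd (ex j) (u i) z * pd (ex i) (u j) z) :=
    Good.sum (fun i => Good.sum (f := fun j z => pd (ex j) (u i) z * pd (ex i) (u j) z)
      (fun j => ((hg i).pd _).mul ((hg j).pd _)))
  rw [e, In_sub (good_DD hg) g2 ht, In_tr' hg hdiv ht]
  ring

end H319NS
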