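import Pool.Agent.H319R3.NS.G

/-!
# `2 ∫ω·(ω·∇)u ≤ 2ν∫|∇ω|² + K (1+y)³` and the energy inequality
-/

namespace H319NS

open MeasureTheory Set Filter Topology
open scoped ContDiff

variable {a b ν : ℝ}

/-- pointwise: `ω·(ω·∇)u ≤ |ω|² |∇u|` -/
lemma stretch_le (u : Fin 3 → V → ℝ) (z : V) : stretch u z ≤ SS u z * √(DD u z) := by
  have h1 : stretch u z = ∑ i, vort u i z * ∑ j, vort u j z * pd (ex j) (u i) z := by
    unfold stretch
    refine Finset.sum_congr rfl (fun i _ => ?_)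
    rw [Finset.mul_sum]
    exact Finset.sum_congr rfl (fun j _ => by ring)
  have h2 := (le_abs_self _).trans
    (sumsq_cs (fun i => vort u i z) (fun i => ∑ j, vort u j z * pd (ex j) (u i) z))
  rw [h1]
  refine h2.trans ?_
  have h3 : ∀ i, (∑ j, vort u j z * pd (ex j) (u i) z) ^ 2
      ≤ SS u z * ∑ j, pd (ex j) (u i) z ^ 2 := fun i =>
    Finset.sum_mul_sq_le_sq_mul_sq _ _ _
  have h4 : ∑ i, (∑ j, vort u j z * pd (ex j) (u i) z) ^ 2 ≤ SS u z * DD u z := by
    unfold DD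
    rw [Finset.mul_sum]
    exact Finset.sum_le_sum (fun i _ => h3 i)
  have h5 : √(∑ i, (∑ j, vort u j z * pd (ex j) (u i) z) ^ 2) ≤ √(SS u z) * √(DD u z) := by
    rw [← Real.sqrt_mul (SS_nonneg u z)]
    exact Real.sqrt_le_sqrt h4
  calc √(∑ i, vort u i z ^ 2) * √(∑ i, (∑ j, vort u j z * pd (ex j) (u i) z) ^ 2)
      ≤ √(SS u z) * (√(SS u z) * √(DD u z)) :=
        mul_le_mul_of_nonneg_left h5 (Real.sqrt_nonneg _)
    _ = SS u z * √(DD u z) := by
        rw [← mul_assoc, Real.mul_self_sqrt (SS_nonneg u z)]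

lemma young_aux {ε A B : ℝ} (hε : 0 < ε) (hA : 0 ≤ A) (hB : 0 ≤ B) :
    2 * (A ^ 3 * B ^ 3) ≤ ε * A ^ 4 + 16 / ε ^ 3 * B ^ 12 := by
  rcases le_total A (2 / ε * B ^ 3) with h | h
  · have h1 : A ^ 3 ≤ (2 / ε * B ^ 3) ^ 3 := pow_le_pow_left₀ hA h 3
    have h2 : 2 * (A ^ 3 * B ^ 3) ≤ 2 * ((2 / ε * B ^ 3) ^ 3 * B ^ 3) := by
      have : 0 ≤ B ^ 3 := by positivity
      nlinarith [mul_le_mul_of_nonneg_right h1 this]
    have h3 : 2 * ((2 / ε * B ^ 3) ^ 3 * B ^ 3) = 16 / ε ^ 3 * B ^ 12 := by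
      field_simp
      ring
    have h4 : 0 ≤ ε * A ^ 4 := by positivity
    linarith
  · have h1 : 2 * B ^ 3 ≤ ε * A := by
      have := mul_le_mul_of_nonneg_left h hε.le
      have e : ε * (2 / ε * B ^ 3) = 2 * B ^ 3 := by field_simp
      linarith
    have h2 : 2 * (A ^ 3 * B ^ 3) ≤ ε * A ^ 4 := by
      have : 0 ≤ A ^ 3 := by positivity
      nlinarith [mul_le_mul_of_nonneg_left h1 this]
    have h3 : 0 ≤ 16 / ε ^ 3 * B ^ 12 := by positivity
    linarith

/-- `2 ∫ω·(ω·∇)u ≤ 2ν∫|∇ω|² + ν y/8 + (65536/ν³) y³` -/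
lemma stretch_int {u : Fin 3 → V → ℝ} (hν : 0 < ν) (hg : ∀ i, Good a b (u i))
    (hdiv : ∀ z ∈ Slab a b, ∑ j, pd (ex j) (u j) z = 0) {t : ℝ} (ht : t ∈ Ioo a b) :
    2 * In (stretch u) t ≤ 2 * ν * In (GG u) t + ν / 8 * In (SS u) t
      + 65536 / ν ^ 3 * In (SS u) t ^ 3 := by
  have hS0 : ∀ x, 0 ≤ SS u (x, t) := fun x => SS_nonneg u _
  have hSc := SS_cont hg ht
  have hDc : Continuous (fun x : Fin 3 → ℝ => DD u (x, t)) := slice_cont (good_DD hg) ht
  have hsD : Continuous (fun x : Fin 3 → ℝ => √(DD u (x, t))) := hDc.sqrt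
  have hsS : Continuous (fun x : Fin 3 → ℝ => √(SS u (x, t))) := hSc.sqrt
  have hc3 : Continuous (fun x : Fin 3 → ℝ => SS u (x, t) * √(SS u (x, t))) := hSc.mul hsS
  set y := In (SS u) t with hy
  set gg := In (GG u) t with hgg
  set L := ∫ x in Q, SS u (x, t) ^ 3 with hL
  have hy0 : 0 ≤ y := In_SS_nonneg u t
  have hg0 : 0 ≤ gg := setIntegral_nonneg measurableSet_Icc (fun x _ => GG_nonneg u (x, t))
  have hL0 : 0 ≤ L := integral_nonneg (fun x => pow_nonneg (hS0 x) 3)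
  have a1 : In (stretch u) t ≤ ∫ x in Q, SS u (x, t) * √(DD u (x, t)) := by
    unfold In
    exact setIntegral_mono_on (integrableOn_slice (good_stretch hg) ht)
      ((hSc.mul hsD).continuousOn.integrableOn_compact isCompact_Icc) measurableSet_Icc
      (fun x _ => stretch_le u (x, t))
  have a2 := cs_cube hSc hsD
  have a3 : ∫ x in Q, √(DD u (x, t)) ^ 2 = y := by
    rw [hy, ← In_DD hg hdiv ht]
    unfold In
    exact setIntegral_congr_fun measurableSet_Icc (fun x _ => Real.sq_sqrt (DD_nonneg u (x, t)))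
  rw [a3] at a2
  have a4 := cs_cube hsS hc3
  have e6 : ∀ x, (SS u (x, t) * √(SS u (x, t))) ^ 2 = SS u (x, t) ^ 3 := by
    intro x
    rw [mul_pow, Real.sq_sqrt (hS0 x)]
    ring
  have e7 : ∫ x in Q, √(SS u (x, t)) ^ 2 = y := by
    rw [hy]
    unfold In
    exact setIntegral_congr_fun measurableSet_Icc (fun x _ => Real.sq_sqrt (hS0 x))
  have e8 : ∫ x in Q, √(SS u (x, t)) * (SS u (x, t) * √(SS u (x, t)))
      = ∫ x in Q, SS u (x, t) ^ 2 := by
    refine setIntegral_congr_fun measurableSet_Icc (fun x _ => ?_)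
    have := Real.mul_self_sqrt (hS0 x)
    show √(SS u (x, t)) * (SS u (x, t) * √(SS u (x, t))) = SS u (x, t) ^ 2
    linear_combination (SS u (x, t)) * this
  simp only [e6] at a4
  rw [e7, e8] at a4
  have a5 := sob_vort hg ht
  set B := √y + 4 * √gg with hB
  have hB0 : 0 ≤ B := by positivity
  -- fourth root of y, square root of B
  set β := √(√y) with hβ
  set α := √B with hα
  have b1 : β ^ 4 = y := by
    rw [show β ^ 4 = (β ^ 2) ^ 2 by ring, hβ, Real.sq_sqrt (Real.sqrt_nonneg _),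
      Real.sq_sqrt hy0]
  have b2 : β ^ 2 = √y := by rw [hβ, Real.sq_sqrt (Real.sqrt_nonneg _)]
  have b3 : α ^ 2 = B := by rw [hα, Real.sq_sqrt hB0]
  have b0 : 0 ≤ β := Real.sqrt_nonneg _
  have b00 : 0 ≤ α := Real.sqrt_nonneg _
  have b4 : √(∫ x in Q, SS u (x, t) ^ 2) ≤ β * α ^ 3 := by
    rw [show β * α ^ 3 = √((β * α ^ 3) ^ 2) from (Real.sqrt_sq (by positivity)).symm]
    refine Real.sqrt_le_sqrt ?_
    calc ∫ x in Q, SS u (x, t) ^ 2 ≤ √y * √L := a4
      _ ≤ √y * B ^ 3 := mul_le_mul_of_nonneg_left a5 (Real.sqrt_nonneg _)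
      _ = (β * α ^ 3) ^ 2 := by rw [← b2, ← b3]; ring
  have b5 : In (stretch u) t ≤ β ^ 3 * α ^ 3 := by
    calc In (stretch u) t ≤ ∫ x in Q, SS u (x, t) * √(DD u (x, t)) := a1
      _ ≤ √(∫ x in Q, SS u (x, t) ^ 2) * √y := a2
      _ ≤ (β * α ^ 3) * √y := mul_le_mul_of_nonneg_right b4 (Real.sqrt_nonneg _)
      _ = β ^ 3 * α ^ 3 := by rw [← b2]; ring
  have b6 := young_aux (ε := ν / 16) (by positivity) b00 b0
  have b7 : α ^ 4 ≤ 2 * y + 32 * gg := by
    rw [show α ^ 4 = (α ^ 2) ^ 2 by ring, b3, hB]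
    have s1 : √y ^ 2 = y := Real.sq_sqrt hy0
    have s2 : √gg ^ 2 = gg := Real.sq_sqrt hg0
    nlinarith [sq_nonneg (√y - 4 * √gg)]
  have b8 : β ^ 12 = y ^ 3 := by rw [← b1]; ring
  rw [b8] at b6
  have b9 : 16 / (ν / 16) ^ 3 = 65536 / ν ^ 3 := by
    field_simp
    norm_num
  rw [b9] at b6
  have b10 : ν / 16 * α ^ 4 ≤ ν / 16 * (2 * y + 32 * gg) :=
    mul_le_mul_of_nonneg_left b7 (by positivity)
  nlinarith [b5, b6, b10]

/-- the derivative of the energy -/
lemma hasDerivAt_energy {u : Fin 3 → V → ℝ} {p : V → ℝ} (h : IsNS ν a b u p)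
    {t : ℝ} (ht : t ∈ Ioo a b) :
    HasDerivAt (In (UU u)) (-(2 * ν) * In (DD u) t) t := by
  have hg := h.good_u
  have hp := h.good_p
  have h1 := hasDerivAt_In (good_UU hg) ht
  convert h1 using 1
  have i3 : In (fun z => ∑ i, ∑ j, (pd (ex j) (pd (ex j) (u i)) z * u i z
      + pd (ex j) (u i) z ^ 2)) t = 0 := by
    have : ∀ i j, Good a b (fun z => pd (ex j) (pd (ex j) (u i)) z * u i z
      + pd (ex j) (u i) z ^ 2) := fun i j =>
      ((((hg i).pd _).pd _).mul (hg i)).add (good_sq ((hg i).pd _))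
    rw [In_sum (f := fun i z => ∑ j, (pd (ex j) (pd (ex j) (u i)) z * u i z
      + pd (ex j) (u i) z ^ 2))
      (fun i => Good.sum (f := fun j z => pd (ex j) (pd (ex j) (u i)) z * u i z
      + pd (ex j) (u i) z ^ 2) (fun j => this i j)) ht]
    refine Finset.sum_eq_zero (fun i _ => ?_)
    rw [In_sum (f := fun j z => pd (ex j) (pd (ex j) (u i)) z * u i z
      + pd (ex j) (u i) z ^ 2) (fun j => this i j) ht]
    refine Finset.sum_eq_zero (fun j _ => ?_)
    have e0 := In_pd_ex (((hg i).pd (ex j)).mul (hg i)) j ht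
    rw [← e0]
    refine In_congr (fun x _ => ?_)
    have hz : ((x, t) : V) ∈ Slab a b := ht
    rw [pd_mul ((hg i).pd (ex j)) (hg i) _ hz]
    ring
  -- transport and pressure
  let T : Fin 3 → V → ℝ := fun j z => u j z * ((1 / 2) * UU u z + p z)
  have hT : ∀ j, Good a b (T j) := fun j => (hg j).mul ((Good.cmul _ (good_UU hg)).add hp)
  have i4 : In (fun z => ∑ j, pd (ex j) (T j) z) t = 0 := by
    rw [In_sum (f := fun j z => pd (ex j) (T j) z) (fun j => (hT j).pd _) ht]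
    exact Finset.sum_eq_zero (fun j _ => In_pd_ex (hT j) j ht)
  have hpt : ∀ x ∈ Q, pd et (UU u) (x, t)
      = (fun z => ((2 * ν) * (∑ i, ∑ j, (pd (ex j) (pd (ex j) (u i)) z * u i z
      + pd (ex j) (u i) z ^ 2)) - 2 * (∑ j, pd (ex j) (T j) z)) - (2 * ν) * DD u z) (x, t) := by
    intro x _
    have hz : ((x, t) : V) ∈ Slab a b := ht
    have hdiv := h.div_free _ hz
    have e3 : ∀ (v : V) l, pd v (fun z => u l z ^ 2) (x, t)
        = 2 * (u l (x, t) * pd v (u l) (x, t)) := by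
      intro v l
      have : (fun z => u l z ^ 2) = fun z => u l z * u l z := by
        funext z; ring
      rw [this, pd_mul (hg l) (hg l) _ hz]
      ring
    have e2 : ∀ v : V, pd v (UU u) (x, t) = ∑ l, 2 * (u l (x, t) * pd v (u l) (x, t)) := by
      intro v
      have : pd v (UU u) (x, t) = ∑ l, pd v (fun z => u l z ^ 2) (x, t) :=
        pd_sum (f := fun l z => u l z ^ 2) (fun l => good_sq (hg l)) v hz
      rw [this]
      exact Finset.sum_congr rfl (fun l _ => e3 v l)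
    have eT : ∀ j, pd (ex j) (T j) (x, t)
        = pd (ex j) (u j) (x, t) * ((1 / 2) * UU u (x, t) + p (x, t))
          + u j (x, t) * ((1 / 2) * pd (ex j) (UU u) (x, t) + pd (ex j) p (x, t)) := by
      intro j
      rw [show T j = fun z => u j z * ((1 / 2) * UU u z + p z) from rfl,
        pd_mul (hg j) ((Good.cmul _ (good_UU hg)).add hp) _ hz,
        pd_add (Good.cmul _ (good_UU hg)) hp _ hz, pd_cmul _ (good_UU hg) _ hz]
    have m : ∀ i, pd et (u i) (x, t) = ν * ∑ j, pd (ex j) (pd (ex j) (u i)) (x, t)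
        - pd (ex i) p (x, t) - ∑ j, u j (x, t) * pd (ex j) (u i) (x, t) := by
      intro i
      have := h.momentum i _ hz
      linarith
    simp only [eT, e2, m]
    unfold DD
    simp only [Fin.sum_univ_three] at *
    linear_combination (UU u (x, t) + 2 * p (x, t)) * hdiv
  have g3 : Good a b (fun z => ∑ i, ∑ j, (pd (ex j) (pd (ex j) (u i)) z * u i z
      + pd (ex j) (u i) z ^ 2)) :=
    Good.sum (fun i => Good.sum (f := fun j z => pd (ex j) (pd (ex j) (u i)) z * u i z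
      + pd (ex j) (u i) z ^ 2) (fun j =>
        ((((hg i).pd _).pd _).mul (hg i)).add (good_sq ((hg i).pd _))))
  have g4 : Good a b (fun z => ∑ j, pd (ex j) (T j) z) :=
    Good.sum (f := fun j z => pd (ex j) (T j) z) (fun j => (hT j).pd _)
  have hc := In_congr (f := pd et (UU u))
    (g := fun z => ((2 * ν) * (∑ i, ∑ j, (pd (ex j) (pd (ex j) (u i)) z * u i z
      + pd (ex j) (u i) z ^ 2)) - 2 * (∑ j, pd (ex j) (T j) z)) - (2 * ν) * DD u z)
      (t := t) hpt
  rw [hc, In_sub ((Good.cmul _ g3).sub (Good.cmul _ g4)) (Good.cmul _ (good_DD hg)) ht,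
    In_sub (Good.cmul _ g3) (Good.cmul _ g4) ht, In_cmul, In_cmul, In_cmul, i3, i4]
  ring

/-- the energy does not increase -/
lemma energy_le {u : Fin 3 → V → ℝ} {p : V → ℝ} (hν : 0 ≤ ν) (h : IsNS ν a b u p)
    {s t : ℝ} (hs : a < s) (hst : s ≤ t) (ht : t < b) : In (UU u) t ≤ In (UU u) s := by
  have hsub : Icc s t ⊆ Ioo a b := fun r hr => ⟨hs.trans_le hr.1, hr.2.trans_lt ht⟩
  have hanti : AntitoneOn (In (UU u)) (Icc s t) := by
    refine antitoneOn_of_deriv_nonpos (convex_Icc s t) ?_ ?_ ?_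
    · intro r hr
      exact (hasDerivAt_energy h (hsub hr)).continuousAt.continuousWithinAt
    · intro r hr
      rw [interior_Icc] at hr
      exact (hasDerivAt_energy h (hsub (Ioo_subset_Icc_self hr))).differentiableAt.differentiableWithinAt
    · intro r hr
      rw [interior_Icc] at hr
      rw [(hasDerivAt_energy h (hsub (Ioo_subset_Icc_self hr))).deriv]
      have : 0 ≤ In (DD u) r :=
        setIntegral_nonneg measurableSet_Icc (fun x _ => DD_nonneg u (x, r))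
      nlinarith [mul_nonneg hν this]
  exact hanti (left_mem_Icc.2 hst) (right_mem_Icc.2 hst) hst

end H319NS
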