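import Mathlib

/-!
# An ordinary differential inequality of type I
-/

namespace H319NS

open MeasureTheory Set Filter Topology

/-- the logarithmic time `log ((b - t1) / (b - s))` -/
noncomputable def ell (b t1 s : ℝ) : ℝ := Real.log (b - t1) - Real.log (b - s)

lemma hasDerivAt_ell {b t1 s : ℝ} (hs : s < b) : HasDerivAt (ell b t1) (1 / (b - s)) s := by
  have h1 : HasDerivAt (fun s => b - s) (-1) s := by
    simpa using (hasDerivAt_id s).const_sub b
  have h2 := (h1.log (sub_pos.2 hs).ne').const_sub (Real.log (b - t1))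
  refine h2.congr_deriv ?_
  rw [neg_div, neg_neg]

lemma ell_self (b t1 : ℝ) : ell b t1 t1 = 0 := by unfold ell; ring

lemma ell_mono {b t1 s r : ℝ} (hr : r < b) (h : s ≤ r) : ell b t1 s ≤ ell b t1 r := by
  unfold ell
  have := Real.log_le_log (sub_pos.2 hr) (by linarith : b - r ≤ b - s)
  linarith

lemma ell_nonneg {b t1 s : ℝ} (hs : s < b) (h : t1 ≤ s) : 0 ≤ ell b t1 s := by
  have := ell_mono (t1 := t1) hs h
  rwa [ell_self] at this

lemma exp_ell {b t1 s : ℝ} (h1 : t1 < b) (hs : s < b) :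
    Real.exp (ell b t1 s) = (b - t1) / (b - s) := by
  unfold ell
  rw [Real.exp_sub, Real.exp_log (sub_pos.2 h1), Real.exp_log (sub_pos.2 hs)]

/-- first part: the bound `log (e + y) ≤ (Y(t1) + θ ℓ)/(1 - η)` -/
lemma ode_step1 {y y' Γ : ℝ → ℝ} {t1 b θ η : ℝ} (h1 : t1 < b)
    (hd : ∀ s ∈ Ico t1 b, HasDerivAt y (y' s) s) (hcont : ContinuousOn y' (Ico t1 b))
    (hpos : ∀ s ∈ Ico t1 b, 0 ≤ y s) (hθ : 0 ≤ θ) (hη1 : η < 1)
    (hΓ : ∀ t ∈ Ico t1 b, IntervalIntegrable Γ volume t1 t)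
    (hΓ0 : ∀ s ∈ Ico t1 b, 0 ≤ Γ s) (hΓη : ∀ t ∈ Ico t1 b, ∫ s in t1..t, Γ s ≤ η)
    (hle : ∀ s ∈ Ico t1 b,
      y' s ≤ (θ / (b - s) + Γ s * Real.log (Real.exp 1 + y s)) * (Real.exp 1 + y s)) :
    ∀ t ∈ Ico t1 b, Real.log (Real.exp 1 + y t)
      ≤ (Real.log (Real.exp 1 + y t1) + θ * ell b t1 t) / (1 - η) := by
  intro t ht
  have hE : 0 < Real.exp 1 := Real.exp_pos 1
  set Y : ℝ → ℝ := fun s => Real.log (Real.exp 1 + y s) with hY
  set D : ℝ → ℝ := fun s => Y t1 + θ * ell b t1 s with hD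
  have hsub : Icc t1 t ⊆ Ico t1 b := fun s hs => ⟨hs.1, hs.2.trans_lt ht.2⟩
  have hne : ∀ s ∈ Ico t1 b, 0 < Real.exp 1 + y s := fun s hs => by
    have := hpos s hs; linarith
  have hY1 : ∀ s ∈ Ico t1 b, 1 ≤ Y s := by
    intro s hs
    show 1 ≤ Real.log (Real.exp 1 + y s)
    rw [Real.le_log_iff_exp_le (hne s hs)]
    have := hpos s hs
    linarith
  have ht1 : t1 ∈ Ico t1 b := ⟨le_rfl, h1⟩
  have hD1 : ∀ s ∈ Ico t1 b, 1 ≤ D s := by
    intro s hs
    have a1 := hY1 t1 ht1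
    have a2 := mul_nonneg hθ (ell_nonneg (t1 := t1) hs.2 hs.1)
    show 1 ≤ Y t1 + θ * ell b t1 s
    linarith
  have hYd : ∀ s ∈ Ico t1 b, HasDerivAt Y (y' s / (Real.exp 1 + y s)) s := fun s hs =>
    ((hd s hs).const_add (Real.exp 1)).log (hne s hs).ne'
  have hYc : ContinuousOn Y (Icc t1 t) := fun s hs =>
    (hYd s (hsub hs)).continuousAt.continuousWithinAt
  have hDd : ∀ s ∈ Ico t1 b, HasDerivAt D (θ * (1 / (b - s))) s := fun s hs =>
    ((hasDerivAt_ell (t1 := t1) hs.2).const_mul θ).const_add (Y t1)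
  have hDc : ContinuousOn D (Icc t1 t) := fun s hs =>
    (hDd s (hsub hs)).continuousAt.continuousWithinAt
  have hZc : ContinuousOn (fun s => Y s / D s) (Icc t1 t) :=
    hYc.div hDc (fun s hs => by have := hD1 s (hsub hs); positivity)
  obtain ⟨σ, hσ, hmax⟩ := isCompact_Icc.exists_isMaxOn ⟨t1, left_mem_Icc.2 ht.1⟩ hZc
  set N := Y σ / D σ with hN
  have hDσ : 0 < D σ := lt_of_lt_of_le one_pos (hD1 σ (hsub hσ))
  have hYσ : 0 < Y σ := lt_of_lt_of_le one_pos (hY1 σ (hsub hσ))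
  have hN0 : 0 < N := div_pos hYσ hDσ
  have hYN : ∀ s ∈ Icc t1 t, Y s ≤ N * D s := by
    intro s hs
    have h2 : Y s / D s ≤ N := hmax hs
    rwa [div_le_iff₀ (lt_of_lt_of_le one_pos (hD1 s (hsub hs)))] at h2
  have hsubσ : Icc t1 σ ⊆ Icc t1 t := Icc_subset_Icc_right hσ.2
  have hu : uIcc t1 σ = Icc t1 σ := uIcc_of_le hσ.1
  -- fundamental theorem of calculus for `Y - D`
  have hq : ContinuousOn (fun s => y' s / (Real.exp 1 + y s) - θ * (1 / (b - s))) (Icc t1 σ) := by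
    refine ContinuousOn.sub ?_ ?_
    · refine (hcont.mono (hsubσ.trans hsub)).div ?_ (fun s hs => (hne s (hsub (hsubσ hs))).ne')
      refine continuousOn_const.add ?_
      exact fun s hs => (hd s (hsub (hsubσ hs))).continuousAt.continuousWithinAt
    · refine continuousOn_const.mul (continuousOn_const.div ?_ ?_)
      · exact continuousOn_const.sub continuousOn_id
      · intro s hs
        have := (hsub (hsubσ hs)).2
        exact (sub_pos.2 this).ne'
  have hqi : IntervalIntegrable (fun s => y' s / (Real.exp 1 + y s) - θ * (1 / (b - s)))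
      volume t1 σ := by
    rw [← hu] at hq
    exact hq.intervalIntegrable
  have hFTC : ∫ s in t1..σ, (y' s / (Real.exp 1 + y s) - θ * (1 / (b - s)))
      = (Y σ - D σ) - (Y t1 - D t1) := by
    refine intervalIntegral.integral_eq_sub_of_hasDerivAt (f := fun s => Y s - D s) ?_ hqi
    intro s hs
    rw [hu] at hs
    exact (hYd s (hsub (hsubσ hs))).sub (hDd s (hsub (hsubσ hs)))
  have hΓσ : IntervalIntegrable Γ volume t1 σ := hΓ σ (hsub hσ)
  have hmono : ∫ s in t1..σ, (y' s / (Real.exp 1 + y s) - θ * (1 / (b - s)))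
      ≤ ∫ s in t1..σ, Γ s * (N * D σ) := by
    refine intervalIntegral.integral_mono_on hσ.1 hqi (hΓσ.mul_const _) (fun s hs => ?_)
    have hs' := hsub (hsubσ hs)
    have a1 : y' s / (Real.exp 1 + y s) ≤ θ / (b - s) + Γ s * Y s := by
      rw [div_le_iff₀ (hne s hs')]
      exact hle s hs'
    have a2 : Y s ≤ N * D σ := by
      refine (hYN s (hsubσ hs)).trans (mul_le_mul_of_nonneg_left ?_ hN0.le)
      show Y t1 + θ * ell b t1 s ≤ Y t1 + θ * ell b t1 σ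
      have := mul_le_mul_of_nonneg_left (ell_mono (t1 := t1) (hsub hσ).2 hs.2) hθ
      linarith
    have a3 := mul_le_mul_of_nonneg_left a2 (hΓ0 s hs')
    have a4 : θ * (1 / (b - s)) = θ / (b - s) := by ring
    rw [a4]
    linarith
  have hDt1 : D t1 = Y t1 := by
    show Y t1 + θ * ell b t1 t1 = Y t1
    rw [ell_self]; ring
  have hint : ∫ s in t1..σ, Γ s * (N * D σ) = (∫ s in t1..σ, Γ s) * (N * D σ) :=
    intervalIntegral.integral_mul_const _ _
  have hfin : Y σ ≤ D σ + η * (N * D σ) := by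
    have b1 : (∫ s in t1..σ, Γ s) * (N * D σ) ≤ η * (N * D σ) :=
      mul_le_mul_of_nonneg_right (hΓη σ (hsub hσ)) (by positivity)
    rw [hFTC, hint, hDt1] at hmono
    linarith
  have hNη : N ≤ 1 + η * N := by
    rw [hN, div_le_iff₀ hDσ]
    calc Y σ ≤ D σ + η * (N * D σ) := hfin
      _ = (1 + η * (Y σ / D σ)) * D σ := by rw [← hN]; ring
  have hN1 : N ≤ 1 / (1 - η) := by
    rw [le_div_iff₀ (by linarith)]
    linarith
  have hfinal := hYN t (right_mem_Icc.2 ht.1)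
  have hDt : 0 ≤ D t := zero_le_one.trans (hD1 t ht)
  calc Y t ≤ N * D t := hfinal
    _ ≤ 1 / (1 - η) * D t := mul_le_mul_of_nonneg_right hN1 hDt
    _ = D t / (1 - η) := by ring

/-- second part: from `1 + y ≤ C exp (θ₂ ℓ)`, `θ₂ < 1/2`, and `y' ≤ K (1+y)³` to a bound. -/
lemma ode_step2 {y y' : ℝ → ℝ} {t1 b θ₂ C K : ℝ} (h1 : t1 < b)
    (hd : ∀ s ∈ Ico t1 b, HasDerivAt y (y' s) s)
    (hpos : ∀ s ∈ Ico t1 b, 0 ≤ y s) (hθ : θ₂ < 1 / 2) (hK : 0 ≤ K)
    (hC : ∀ s ∈ Ico t1 b, 1 + y s ≤ C * Real.exp (θ₂ * ell b t1 s))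
    (hcube : ∀ s ∈ Ico t1 b, y' s ≤ K * (1 + y s) ^ 3) :
    ∀ t ∈ Ico t1 b,
      y t ≤ Real.exp (Real.log (1 + y t1) + K * C ^ 2 * (b - t1) / (1 - 2 * θ₂)) := by
  intro t ht
  have hsub : Icc t1 t ⊆ Ico t1 b := fun s hs => ⟨hs.1, hs.2.trans_lt ht.2⟩
  have h12 : 0 < 1 - 2 * θ₂ := by linarith
  have hbt : 0 < b - t1 := sub_pos.2 h1
  let F : ℝ → ℝ := fun s =>
    -(K * C ^ 2 * (b - t1) / (1 - 2 * θ₂)) * Real.exp (-(1 - 2 * θ₂) * ell b t1 s)
  have hne : ∀ s ∈ Ico t1 b, 0 < 1 + y s := fun s hs => by have := hpos s hs; linarith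
  have hFd : ∀ s ∈ Ico t1 b, HasDerivAt F (K * C ^ 2 * Real.exp (θ₂ * ell b t1 s) ^ 2) s := by
    intro s hs
    have e1 := (((hasDerivAt_ell (t1 := t1) hs.2).const_mul (-(1 - 2 * θ₂))).exp).const_mul
      (-(K * C ^ 2 * (b - t1) / (1 - 2 * θ₂)))
    refine e1.congr_deriv ?_
    have e2 : Real.exp (-(1 - 2 * θ₂) * ell b t1 s)
        = Real.exp (θ₂ * ell b t1 s) ^ 2 * ((b - s) / (b - t1)) := by
      have e3 : (b - s) / (b - t1) = Real.exp (-ell b t1 s) := by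
        rw [Real.exp_neg, exp_ell h1 hs.2, inv_div]
      rw [e3, ← Real.exp_nat_mul, ← Real.exp_add]
      congr 1
      push_cast
      ring
    rw [e2]
    have hbs : b - s ≠ 0 := (sub_pos.2 hs.2).ne'
    have hbt' : b - t1 ≠ 0 := hbt.ne'
    have h12' : 1 - 2 * θ₂ ≠ 0 := h12.ne'
    field_simp
  have hanti : AntitoneOn (fun s => Real.log (1 + y s) - F s) (Icc t1 t) := by
    have hder : ∀ s ∈ Ico t1 b, HasDerivAt (fun s => Real.log (1 + y s) - F s)
        (y' s / (1 + y s) - K * C ^ 2 * Real.exp (θ₂ * ell b t1 s) ^ 2) s := fun s hs =>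
      (((hd s hs).const_add 1).log (hne s hs).ne').sub (hFd s hs)
    refine antitoneOn_of_deriv_nonpos (convex_Icc t1 t) ?_ ?_ ?_
    · intro r hr
      exact (hder r (hsub hr)).continuousAt.continuousWithinAt
    · intro r hr
      rw [interior_Icc] at hr
      exact (hder r (hsub (Ioo_subset_Icc_self hr))).differentiableAt.differentiableWithinAt
    · intro r hr
      rw [interior_Icc] at hr
      have hr' := hsub (Ioo_subset_Icc_self hr)
      rw [(hder r hr').deriv]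
      have c1 : y' r / (1 + y r) ≤ K * (1 + y r) ^ 2 := by
        rw [div_le_iff₀ (hne r hr')]
        calc y' r ≤ K * (1 + y r) ^ 3 := hcube r hr'
          _ = K * (1 + y r) ^ 2 * (1 + y r) := by ring
      have c2 : (1 + y r) ^ 2 ≤ (C * Real.exp (θ₂ * ell b t1 r)) ^ 2 :=
        pow_le_pow_left₀ (hne r hr').le (hC r hr') 2
      have c3 := mul_le_mul_of_nonneg_left c2 hK
      have c4 : K * (C * Real.exp (θ₂ * ell b t1 r)) ^ 2
          = K * C ^ 2 * Real.exp (θ₂ * ell b t1 r) ^ 2 := by ring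
      linarith
  have hfin := hanti (left_mem_Icc.2 ht.1) (right_mem_Icc.2 ht.1) ht.1
  simp only at hfin
  have hFt : F t ≤ 0 := by
    show -(K * C ^ 2 * (b - t1) / (1 - 2 * θ₂)) * Real.exp (-(1 - 2 * θ₂) * ell b t1 t) ≤ 0
    have : 0 ≤ K * C ^ 2 * (b - t1) / (1 - 2 * θ₂) := by positivity
    nlinarith [mul_nonneg this (Real.exp_pos (-(1 - 2 * θ₂) * ell b t1 t)).le]
  have hFt1 : F t1 = -(K * C ^ 2 * (b - t1) / (1 - 2 * θ₂)) := by
    show -(K * C ^ 2 * (b - t1) / (1 - 2 * θ₂)) * Real.exp (-(1 - 2 * θ₂) * ell b t1 t1) = _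
    rw [ell_self]; simp
  rw [hFt1] at hfin
  have hlog : Real.log (1 + y t)
      ≤ Real.log (1 + y t1) + K * C ^ 2 * (b - t1) / (1 - 2 * θ₂) := by linarith
  have hy : 1 + y t ≤ Real.exp (Real.log (1 + y t1) + K * C ^ 2 * (b - t1) / (1 - 2 * θ₂)) :=
    (Real.log_le_iff_le_exp (hne t ht)).1 hlog
  linarith

/-- The differential inequality of type I. -/
theorem ode_typeI {y y' Γ : ℝ → ℝ} {t0 b θ K : ℝ} (h0 : t0 < b)
    (hd : ∀ s ∈ Ico t0 b, HasDerivAt y (y' s) s) (hcont : ContinuousOn y' (Ico t0 b))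
    (hpos : ∀ s ∈ Ico t0 b, 0 ≤ y s) (hθ : 0 ≤ θ) (hθ2 : θ < 1 / 2) (hK : 0 ≤ K)
    (hΓ : IntegrableOn Γ (Ico t0 b)) (hΓ0 : ∀ s ∈ Ico t0 b, 0 ≤ Γ s)
    (hle : ∀ s ∈ Ico t0 b,
      y' s ≤ (θ / (b - s) + Γ s * Real.log (Real.exp 1 + y s)) * (Real.exp 1 + y s))
    (hcube : ∀ s ∈ Ico t0 b, y' s ≤ K * (1 + y s) ^ 3) :
    ∃ C, ∀ t ∈ Ico t0 b, y t ≤ C := by
  have hE : 1 < Real.exp 1 := by
    have := Real.add_one_lt_exp (x := 1) one_ne_zero
    linarith
  set η := (1 - 2 * θ) / 2 with hη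
  have hη0 : 0 < η := by rw [hη]; linarith
  have hη1 : η < 1 := by rw [hη]; linarith
  -- choice of `t1`
  have hΓI : IntegrableOn Γ (uIcc t0 b) := by
    rw [uIcc_of_le h0.le]
    exact (integrableOn_Icc_iff_integrableOn_Ico (by simp)).2 hΓ
  have hprim : ContinuousOn (fun x => ∫ s in t0..x, Γ s) (uIcc t0 b) :=
    intervalIntegral.continuousOn_primitive_interval hΓI
  have hlim : Tendsto (fun x => ∫ s in t0..x, Γ s) (𝓝[Ico t0 b] b) (𝓝 (∫ s in t0..b, Γ s)) := by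
    have := hprim b right_mem_uIcc
    refine this.mono_left (nhdsWithin_mono _ ?_)
    rw [uIcc_of_le h0.le]
    exact Ico_subset_Icc_self
  have hev := hlim (Metric.ball_mem_nhds _ (half_pos hη0))
  rw [mem_map, mem_nhdsWithin] at hev
  obtain ⟨U, hU, hbU, hUs⟩ := hev
  obtain ⟨ε, hε, hball⟩ := Metric.isOpen_iff.1 hU b hbU
  set t1 := max t0 (b - ε / 2) with ht1def
  have ht1b : t1 < b := max_lt h0 (by linarith)
  have ht01 : t0 ≤ t1 := le_max_left _ _
  have hclose : ∀ t ∈ Ico t1 b, |(∫ s in t0..t, Γ s) - ∫ s in t0..b, Γ s| < η / 2 := by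
    intro t ht
    have h1 : t ∈ U := by
      refine hball ?_
      rw [Metric.mem_ball, Real.dist_eq, abs_lt]
      have := (le_max_right t0 (b - ε / 2)).trans ht.1
      constructor <;> linarith [ht.2]
    have h2 : t ∈ Ico t0 b := ⟨ht01.trans ht.1, ht.2⟩
    have h3 := hUs ⟨h1, h2⟩
    simpa [Real.dist_eq] using h3
  have hsub1 : Ico t1 b ⊆ Ico t0 b := Ico_subset_Ico_left ht01
  have hii : ∀ t ∈ Ico t0 b, IntervalIntegrable Γ volume t0 t := by
    intro t ht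
    refine (intervalIntegrable_iff_integrableOn_Ioc_of_le ht.1).2 (hΓ.mono_set ?_)
    exact fun s hs => ⟨hs.1.le, hs.2.trans_lt ht.2⟩
  have hii1 : ∀ t ∈ Ico t1 b, IntervalIntegrable Γ volume t1 t := by
    intro t ht
    refine (intervalIntegrable_iff_integrableOn_Ioc_of_le ht.1).2 (hΓ.mono_set ?_)
    exact fun s hs => ⟨ht01.trans hs.1.le, hs.2.trans_lt ht.2⟩
  have hΓη : ∀ t ∈ Ico t1 b, ∫ s in t1..t, Γ s ≤ η := by
    intro t ht
    have e1 : (∫ s in t0..t1, Γ s) + ∫ s in t1..t, Γ s = ∫ s in t0..t, Γ s :=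
      intervalIntegral.integral_add_adjacent_intervals (hii t1 ⟨ht01, ht1b⟩) (hii1 t ht)
    have e2 := abs_lt.1 (hclose t ht)
    have e3 := abs_lt.1 (hclose t1 ⟨le_rfl, ht1b⟩)
    linarith [e2.1, e2.2, e3.1, e3.2]
  have s1 := ode_step1 ht1b (fun s hs => hd s (hsub1 hs)) (hcont.mono hsub1)
    (fun s hs => hpos s (hsub1 hs)) hθ hη1 hii1 (fun s hs => hΓ0 s (hsub1 hs)) hΓη
    (fun s hs => hle s (hsub1 hs))
  set θ₂ := θ / (1 - η) with hθ₂
  have hθ₂' : θ₂ < 1 / 2 := by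
    rw [hθ₂, div_lt_iff₀ (by linarith), hη]
    linarith
  set C := Real.exp (Real.log (Real.exp 1 + y t1) / (1 - η)) with hC
  have hCb : ∀ s ∈ Ico t1 b, 1 + y s ≤ C * Real.exp (θ₂ * ell b t1 s) := by
    intro s hs
    have hp : 0 < Real.exp 1 + y s := by have := hpos s (hsub1 hs); positivity
    have h2 := (Real.log_le_iff_le_exp hp).1 (s1 s hs)
    rw [hC, ← Real.exp_add]
    have e : (Real.log (Real.exp 1 + y t1) + θ * ell b t1 s) / (1 - η)
        = Real.log (Real.exp 1 + y t1) / (1 - η) + θ₂ * ell b t1 s := by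
      rw [hθ₂]; ring
    rw [e] at h2
    linarith
  have s2 := ode_step2 ht1b (fun s hs => hd s (hsub1 hs)) (fun s hs => hpos s (hsub1 hs)) hθ₂' hK
    hCb (fun s hs => hcube s (hsub1 hs))
  -- the compact part
  have hyc : ContinuousOn y (Icc t0 t1) := fun s hs =>
    (hd s ⟨hs.1, hs.2.trans_lt ht1b⟩).continuousAt.continuousWithinAt
  obtain ⟨C1, hC1⟩ := isCompact_Icc.exists_bound_of_continuousOn hyc
  refine ⟨max C1 (Real.exp (Real.log (1 + y t1) + K * C ^ 2 * (b - t1) / (1 - 2 * θ₂))), ?_⟩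
  intro t ht
  rcases le_total t t1 with h | h
  · exact ((le_abs_self _).trans (hC1 t ⟨ht.1, h⟩)).trans (le_max_left _ _)
  · exact (s2 t ⟨h, ht.2⟩).trans (le_max_right _ _)

end H319NS
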