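import Pool.Agent.H319R3.NS.H
import Pool.Agent.H319R3.NS.I

/-!
# The criterion of type I, in the region of high vorticity
-/

namespace H319NS

open MeasureTheory Set Filter Topology
open scoped ContDiff

variable {a b ν : ℝ}

lemma double_cs (d p : Fin 3 → ℝ) (M : Fin 3 → Fin 3 → ℝ) :
    |∑ i, d i * ∑ j, p j * M i j|
      ≤ √(∑ i, d i ^ 2) * (√(∑ j, p j ^ 2) * √(∑ i, ∑ j, M i j ^ 2)) := by
  refine (sumsq_cs d (fun i => ∑ j, p j * M i j)).trans ?_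
  refine mul_le_mul_of_nonneg_left ?_ (Real.sqrt_nonneg _)
  rw [← Real.sqrt_mul (Finset.sum_nonneg (fun _ _ => sq_nonneg _))]
  refine Real.sqrt_le_sqrt ?_
  rw [Finset.mul_sum]
  exact Finset.sum_le_sum (fun i _ => Finset.sum_mul_sq_le_sq_mul_sq _ _ _)

set_option maxHeartbeats 4000000 in
/-- bound of `crit` where the vorticity is at most `Ω` -/
lemma crit_low {u : Fin 3 → V → ℝ} {w : Fin 3 → (Fin 3 → ℝ) → ℝ} {κ : (Fin 3 → ℝ) → ℝ}
    {x : Fin 3 → ℝ} {t K Ω : ℝ} (hK : 0 ≤ K)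
    (hw : ∀ i, |w i x| ≤ K) (hdw : ∀ i j, |sd j (w i) x| ≤ K) (hκ : |κ x| ≤ K)
    (hdκ : ∀ j, |sd j κ x| ≤ K) (hS : SS u (x, t) ≤ Ω ^ 2) :
    crit u w κ x t ≤ (3 * (1 + K) ^ 2 * |Ω|) * √(1 + UU u (x, t)) * √(GG u (x, t))
      + (3 * (1 + K) ^ 2 * |Ω|) ^ 2 * (1 + UU u (x, t)) := by
  set S := SS u (x, t) with hSdef
  set G := GG u (x, t) with hGdef
  set U := UU u (x, t) with hUdef
  have hS0 : 0 ≤ S := SS_nonneg u _
  have hG0 : 0 ≤ G := GG_nonneg u _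
  have hU0 : 0 ≤ U := UU_nonneg u _
  set d : Fin 3 → ℝ := fun i => u i (x, t) - w i x with hd
  set r := √(∑ i, d i ^ 2) with hr
  have hr0 : 0 ≤ r := Real.sqrt_nonneg _
  set s := √S with hs
  have hs0 : 0 ≤ s := Real.sqrt_nonneg _
  set g := √G with hg
  have hg0 : 0 ≤ g := Real.sqrt_nonneg _
  set q := √(1 + U) with hq
  have hq1 : 1 ≤ q := by
    rw [hq]
    exact Real.one_le_sqrt.2 (by linarith)
  have hq2 : q ^ 2 = 1 + U := Real.sq_sqrt (by linarith)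
  set W := |Ω| with hW
  have hW0 : 0 ≤ W := abs_nonneg _
  have hsW : s ≤ W := by
    rw [hs, hW, ← Real.sqrt_sq_eq_abs]
    exact Real.sqrt_le_sqrt hS
  have hSW : S ≤ W ^ 2 := by rw [hW, sq_abs]; exact hS
  -- `|u - w| ≤ 3 (1 + K) q`
  have hrq : r ≤ 3 * (1 + K) * q := by
    have h1 : ∑ i, d i ^ 2 ≤ (3 * (1 + K) * q) ^ 2 := by
      have h2 : ∀ i, d i ^ 2 ≤ 2 * u i (x, t) ^ 2 + 2 * K ^ 2 := by
        intro i
        have h3 : w i x ^ 2 ≤ K ^ 2 := by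
          rw [← sq_abs (w i x)]
          exact pow_le_pow_left₀ (abs_nonneg _) (hw i) 2
        show (u i (x, t) - w i x) ^ 2 ≤ _
        nlinarith [sq_nonneg (u i (x, t) + w i x)]
      have h4 : ∑ i, d i ^ 2 ≤ 2 * U + 6 * K ^ 2 := by
        refine (Finset.sum_le_sum (fun i _ => h2 i)).trans ?_
        rw [hUdef]
        unfold UU
        simp only [Fin.sum_univ_three]
        linarith
      have h5 : (3 * (1 + K) * q) ^ 2 = 9 * (1 + K) ^ 2 * (1 + U) := by rw [← hq2]; ring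
      rw [h5]
      refine h4.trans ?_
      nlinarith [mul_nonneg hK hU0, mul_nonneg (sq_nonneg K) hU0, sq_nonneg K]
    rw [hr]
    exact Real.sqrt_le_iff.2 ⟨by positivity, h1⟩
  -- the four terms
  have T1 : ∑ i, ∑ j, vort u i (x, t) * vort u j (x, t) * sd j (w i) x ≤ 3 * K * S := by
    have h1 : ∀ i j, vort u i (x, t) * vort u j (x, t) * sd j (w i) x
        ≤ K * ((vort u i (x, t) ^ 2 + vort u j (x, t) ^ 2) / 2) := by
      intro i j
      have h2 : vort u i (x, t) * vort u j (x, t) * sd j (w i) x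
          ≤ |vort u i (x, t) * vort u j (x, t)| * K := by
        refine (le_abs_self _).trans ?_
        rw [abs_mul]
        exact mul_le_mul_of_nonneg_left (hdw i j) (abs_nonneg _)
      have h3 : |vort u i (x, t) * vort u j (x, t)|
          ≤ (vort u i (x, t) ^ 2 + vort u j (x, t) ^ 2) / 2 := by
        rw [abs_le]
        constructor
        · nlinarith [sq_nonneg (vort u i (x, t) + vort u j (x, t))]
        · nlinarith [sq_nonneg (vort u i (x, t) - vort u j (x, t))]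
      nlinarith [mul_le_mul_of_nonneg_right h3 hK]
    refine (Finset.sum_le_sum (fun i _ => Finset.sum_le_sum (fun j _ => h1 i j))).trans ?_
    rw [hSdef]
    unfold SS
    simp only [Fin.sum_univ_three]
    linarith
  have T2 : |∑ i, ∑ j, (u i (x, t) - w i x) * vort u j (x, t) * pd (ex j) (vort u i) (x, t)|
      ≤ r * (s * g) := by
    have h1 : ∑ i, ∑ j, (u i (x, t) - w i x) * vort u j (x, t) * pd (ex j) (vort u i) (x, t)
        = ∑ i, d i * ∑ j, vort u j (x, t) * pd (ex j) (vort u i) (x, t) := by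
      refine Finset.sum_congr rfl (fun i _ => ?_)
      rw [Finset.mul_sum]
      exact Finset.sum_congr rfl (fun j _ => by rw [hd]; ring)
    rw [h1]
    exact double_cs d (fun j => vort u j (x, t)) (fun i j => pd (ex j) (vort u i) (x, t))
  have T3 : |κ x * (∑ i, (u i (x, t) - w i x) * ∑ l, vort u l (x, t) * pd (ex i) (vort u l) (x, t))|
      ≤ K * (r * (s * g)) := by
    rw [abs_mul]
    have h1 := double_cs d (fun j => vort u j (x, t)) (fun i l => pd (ex i) (vort u l) (x, t))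
    have h2 : ∑ i, ∑ l, pd (ex i) (vort u l) (x, t) ^ 2 = G := by
      rw [hGdef]
      unfold GG
      exact Finset.sum_comm
    rw [h2] at h1
    exact mul_le_mul hκ h1 (abs_nonneg _) hK
  have T4 : (∑ i, sd i κ x * (u i (x, t) - w i x)) - κ x * ∑ i, sd i (w i) x
      ≤ 2 * K * r + 3 * K ^ 2 := by
    have h1 : |∑ i, sd i κ x * d i| ≤ √(∑ i, sd i κ x ^ 2) * r := sumsq_cs _ _
    have h2 : √(∑ i, sd i κ x ^ 2) ≤ 2 * K := by
      refine Real.sqrt_le_iff.2 ⟨by positivity, ?_⟩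
      have h3 : ∀ i, sd i κ x ^ 2 ≤ K ^ 2 := fun i => by
        rw [← sq_abs (sd i κ x)]
        exact pow_le_pow_left₀ (abs_nonneg _) (hdκ i) 2
      calc ∑ i, sd i κ x ^ 2 ≤ ∑ _i : Fin 3, K ^ 2 := Finset.sum_le_sum (fun i _ => h3 i)
        _ = 3 * K ^ 2 := by simp
        _ ≤ (2 * K) ^ 2 := by nlinarith [sq_nonneg K]
    have h4 : |κ x * ∑ i, sd i (w i) x| ≤ 3 * K ^ 2 := by
      rw [abs_mul]
      have h5 : |∑ i, sd i (w i) x| ≤ 3 * K := by
        refine (Finset.abs_sum_le_sum_abs _ _).trans ?_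
        calc ∑ i, |sd i (w i) x| ≤ ∑ _i : Fin 3, K := Finset.sum_le_sum (fun i _ => hdw i i)
          _ = 3 * K := by simp
      calc |κ x| * |∑ i, sd i (w i) x| ≤ K * (3 * K) := mul_le_mul hκ h5 (abs_nonneg _) hK
        _ = 3 * K ^ 2 := by ring
    have h6 := (le_abs_self _).trans h1
    have h7 := neg_le_of_abs_le h4
    have h8 := mul_le_mul_of_nonneg_right h2 hr0
    have h9 : ∑ i, sd i κ x * (u i (x, t) - w i x) = ∑ i, sd i κ x * d i := rfl
    rw [h9]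
    linarith
  -- combination
  have E1 : crit u w κ x t ≤ 3 * K * S + (1 + K) * (r * (s * g))
      + (1 / 2) * S * (2 * K * r + 3 * K ^ 2) := by
    unfold crit
    have h2 := neg_le_of_abs_le T2
    have h3 := (le_abs_self _).trans T3
    have h4 := mul_le_mul_of_nonneg_left T4 (by positivity : 0 ≤ (1 / 2) * S)
    rw [← hSdef]
    linarith
  have E2 : (1 + K) * (r * (s * g)) ≤ 3 * (1 + K) ^ 2 * W * q * g := by
    have h1 : r * s ≤ 3 * (1 + K) * q * W := mul_le_mul hrq hsW hs0 (by positivity)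
    have h2 : 0 ≤ (1 + K) * g := by positivity
    nlinarith [mul_le_mul_of_nonneg_left h1 h2]
  have E3 : 3 * K * S + (1 / 2) * S * (2 * K * r + 3 * K ^ 2)
      ≤ (3 * (1 + K) ^ 2 * W) ^ 2 * (1 + U) := by
    rw [← hq2]
    have h1 : 3 * K + (1 / 2) * (2 * K * r + 3 * K ^ 2) ≤ 9 * (1 + K) ^ 4 * q ^ 2 := by
      have h2 : K * r ≤ K * (3 * (1 + K) * q) := mul_le_mul_of_nonneg_left hrq hK
      have h3 : q ≤ q ^ 2 := by nlinarith
      have h4 : 1 ≤ q ^ 2 := by nlinarith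
      have h5 : K * (3 * (1 + K) * q) ≤ 3 * K * (1 + K) * q ^ 2 := by
        have : 0 ≤ 3 * K * (1 + K) := by positivity
        nlinarith [mul_le_mul_of_nonneg_left h3 this]
      have h6 : 3 * K + 3 / 2 * K ^ 2 ≤ (3 * K + 3 / 2 * K ^ 2) * q ^ 2 :=
        le_mul_of_one_le_right (by positivity) h4
      have h7 : 3 * K + 3 / 2 * K ^ 2 + 3 * K * (1 + K) ≤ 9 * (1 + K) ^ 4 := by
        nlinarith [hK, sq_nonneg K, mul_nonneg hK (sq_nonneg K), sq_nonneg (K ^ 2)]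
      have h8 := mul_le_mul_of_nonneg_right h7 (sq_nonneg q)
      linarith
    have h9 : 3 * K * S + (1 / 2) * S * (2 * K * r + 3 * K ^ 2)
        = S * (3 * K + (1 / 2) * (2 * K * r + 3 * K ^ 2)) := by ring
    rw [h9]
    have h10 : 0 ≤ 3 * K + (1 / 2) * (2 * K * r + 3 * K ^ 2) := by positivity
    calc S * (3 * K + (1 / 2) * (2 * K * r + 3 * K ^ 2))
        ≤ W ^ 2 * (9 * (1 + K) ^ 4 * q ^ 2) := mul_le_mul hSW h1 h10 (by positivity)
      _ = (3 * (1 + K) ^ 2 * W) ^ 2 * q ^ 2 := by ring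
  linarith

lemma In_one (t : ℝ) : In (fun _ => (1 : ℝ)) t = 1 := by
  unfold In Q
  rw [setIntegral_const]
  simp [measureReal_def, Real.volume_Icc_pi]

/-- the differential inequality at one time -/
lemma deriv_high {u : Fin 3 → V → ℝ} {p : V → ℝ} {δ : ℝ} (hδ : 0 < δ) (hδν : δ < ν)
    (h : IsNS ν a b u p) {t : ℝ} (ht : t ∈ Ioo a b) {m n lam K Ω E0 : ℝ} (hl : |lam| ≤ 1)
    (hn : 0 ≤ n) (hK : 0 ≤ K) (hE0 : In (UU u) t ≤ E0)
    {w : Fin 3 → (Fin 3 → ℝ) → ℝ} {κ : (Fin 3 → ℝ) → ℝ}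
    (hw : ∀ i, SmoothPer (w i)) (hκ : SmoothPer κ)
    (hb : ∀ x i j, |w i x| ≤ K ∧ |sd j (w i) x| ≤ K ∧ |κ x| ≤ K ∧ |sd j κ x| ≤ K)
    (hc : ∀ x, Ω ^ 2 < SS u (x, t) →
      crit u w κ x t ≤ m * √(SS u (x, t)) * √(GC u lam (x, t)) + n * SS u (x, t)) :
    -(2 * ν) * In (GG u) t + 2 * In (stretch u) t
      ≤ (m ^ 2 / (2 * (ν - δ)) + 2 * n) * In (SS u) t
        + (3 * (1 + K) ^ 2 * |Ω|) ^ 2 * (1 / (2 * δ) + 2) * (1 + E0) := by
  have hg := h.good_u
  have hνδ : 0 < ν - δ := sub_pos.2 hδν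
  set A := 3 * (1 + K) ^ 2 * |Ω| with hA
  have h1 := In_stretch h hw hκ ht
  have gU : Good a b (fun z => 1 + UU u z) := (Good.const 1).add (good_UU hg)
  have gR : Good a b (fun z => ((ν - δ) * GC u lam z + (m ^ 2 / (4 * (ν - δ)) + n) * SS u z)
      + (δ * GG u z + (A ^ 2 / (4 * δ) + A ^ 2) * (1 + UU u z))) :=
    ((Good.cmul _ (good_GC hg lam)).add (Good.cmul _ (good_SS hg))).add
      ((Good.cmul _ (good_GG hg)).add (Good.cmul _ gU))
  have h2 : In (critF u w κ) t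
      ≤ In (fun z => ((ν - δ) * GC u lam z + (m ^ 2 / (4 * (ν - δ)) + n) * SS u z)
      + (δ * GG u z + (A ^ 2 / (4 * δ) + A ^ 2) * (1 + UU u z))) t := by
    refine In_mono (good_critF hg hw hκ) gR ht (fun x _ => ?_)
    rw [critF_eq hw hκ]
    have hS0 := SS_nonneg u (x, t)
    have hG0 := GG_nonneg u (x, t)
    have hC0 := GC_nonneg u hl (x, t)
    have hU0 := UU_nonneg u (x, t)
    rcases lt_or_ge (Ω ^ 2) (SS u (x, t)) with hx | hx
    · have h3 := hc x hx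
      have h4 := amgm hνδ m (SS u (x, t)) (GC u lam (x, t)) hS0 hC0
      have h5 : 0 ≤ δ * GG u (x, t) + (A ^ 2 / (4 * δ) + A ^ 2) * (1 + UU u (x, t)) := by
        positivity
      linarith
    · have h3 := crit_low (w := w) (κ := κ) (x := x) (t := t) hK (fun i => (hb x i 0).1)
        (fun i j => (hb x i j).2.1) (hb x 0 0).2.2.1 (fun j => (hb x 0 j).2.2.2) hx
      have h4 := amgm hδ A (1 + UU u (x, t)) (GG u (x, t)) (by linarith) hG0
      have h5 : 0 ≤ (ν - δ) * GC u lam (x, t) + (m ^ 2 / (4 * (ν - δ)) + n) * SS u (x, t) := by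
        positivity
      linarith
  rw [In_add ((Good.cmul _ (good_GC hg lam)).add (Good.cmul _ (good_SS hg)))
      ((Good.cmul _ (good_GG hg)).add (Good.cmul _ gU)) ht,
    In_add (Good.cmul _ (good_GC hg lam)) (Good.cmul _ (good_SS hg)) ht,
    In_add (Good.cmul _ (good_GG hg)) (Good.cmul _ gU) ht, In_cmul, In_cmul, In_cmul, In_cmul,
    In_add (Good.const 1) (good_UU hg) ht, In_one, In_GC hg lam ht] at h2
  have h6 : m ^ 2 / (2 * (ν - δ)) = 2 * (m ^ 2 / (4 * (ν - δ))) := by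
    field_simp
    ring
  have h7 : A ^ 2 * (1 / (2 * δ) + 2) = 2 * (A ^ 2 / (4 * δ) + A ^ 2) := by
    field_simp
    ring
  have h8 : 2 * (A ^ 2 / (4 * δ) + A ^ 2) * (1 + In (UU u) t)
      ≤ 2 * (A ^ 2 / (4 * δ) + A ^ 2) * (1 + E0) :=
    mul_le_mul_of_nonneg_left (by linarith) (by positivity)
  rw [h1, h6, h7]
  linarith

/-- The criterion. -/
theorem main_typeI {u : Fin 3 → V → ℝ} {p : V → ℝ} (hν : 0 < ν) (h : IsNS ν a b u p)
    {t0 θ : ℝ} (h0 : a < t0) (h01 : t0 < b) (hθ : 0 ≤ θ) (hθ2 : θ < 1 / 2) {g : ℝ → ℝ}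
    (hg : IntegrableOn g (Ico t0 b)) (hg0 : ∀ s ∈ Ico t0 b, 0 ≤ g s)
    (hc : ∀ s ∈ Ico t0 b, ∃ (w : Fin 3 → (Fin 3 → ℝ) → ℝ) (κ : (Fin 3 → ℝ) → ℝ)
      (lam m n K Ω : ℝ), (∀ i, SmoothPer (w i)) ∧ SmoothPer κ ∧ |lam| ≤ 1 ∧ 0 ≤ n ∧ 0 ≤ K ∧
      (∀ x i j, |w i x| ≤ K ∧ |sd j (w i) x| ≤ K ∧ |κ x| ≤ K ∧ |sd j κ x| ≤ K) ∧
      m ^ 2 / (2 * ν) + 2 * n ≤ θ / (b - s) + g s * Real.log (Real.exp 1 + In (SS u) s) ∧
      (1 + K) ^ 4 * Ω ^ 2
        ≤ g s * ((Real.exp 1 + In (SS u) s) * Real.log (Real.exp 1 + In (SS u) s)) ∧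
      ∀ x, Ω ^ 2 < SS u (x, s) →
        crit u w κ x s ≤ m * √(SS u (x, s)) * √(GC u lam (x, s)) + n * SS u (x, s)) :
    ∃ C, ∀ t ∈ Ico t0 b, In (SS u) t ≤ C := by
  have hgd := h.good_u
  have hsub : Ico t0 b ⊆ Ioo a b := fun s hs => ⟨h0.trans_le hs.1, hs.2⟩
  have hd1 : ∀ s ∈ Ico t0 b, HasDerivAt (In (SS u)) (In (pd et (SS u)) s) s :=
    fun s hs => hasDerivAt_In (good_SS hgd) (hsub hs)
  have hd2 : ∀ s ∈ Ico t0 b, In (pd et (SS u)) s
      = -(2 * ν) * In (GG u) s + 2 * In (stretch u) s :=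
    fun s hs => (hd1 s hs).unique (hasDerivAt_enstrophy h (hsub hs))
  set δ := ν * (1 - 2 * θ) / 4 with hδ
  have hδ0 : 0 < δ := by
    rw [hδ]
    have : 0 < 1 - 2 * θ := by linarith
    positivity
  have hνδ : ν - δ = ν * (3 + 2 * θ) / 4 := by rw [hδ]; ring
  have h32 : 0 < 3 + 2 * θ := by linarith
  have hνδ0 : 0 < ν - δ := by rw [hνδ]; positivity
  set ρ := 4 / (3 + 2 * θ) with hρ
  have hρ1 : 1 ≤ ρ := by
    rw [hρ, le_div_iff₀ h32]; linarith
  have hρθ : ρ * θ < 1 / 2 := by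
    rw [hρ, div_mul_eq_mul_div, div_lt_iff₀ h32]; linarith
  set E0 := In (UU u) t0 with hE0
  have hE00 : 0 ≤ E0 := setIntegral_nonneg measurableSet_Icc (fun x _ => UU_nonneg u (x, t0))
  set C0 := 9 * (1 / (2 * δ) + 2) * (1 + E0) with hC0
  have hC00 : 0 ≤ C0 := by positivity
  set K0 := ν / 8 + 65536 / ν ^ 3 with hK0
  refine ode_typeI (y := In (SS u)) (y' := In (pd et (SS u))) (Γ := fun s => (ρ + C0) * g s)
    (θ := ρ * θ) (K := K0) h01 hd1 ?_ (fun s _ => In_SS_nonneg u s) (by positivity) hρθ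
    (by positivity) (hg.const_mul _) (fun s hs => mul_nonneg (by positivity) (hg0 s hs)) ?_ ?_
  · intro s hs
    exact (hasDerivAt_In ((good_SS hgd).pd et) (hsub hs)).continuousAt.continuousWithinAt
  · intro s hs
    rw [hd2 s hs]
    obtain ⟨w, κ, lam, m, n, K, Ω, hw, hκ, hl, hn, hK, hb, hmn, hΩ, hcr⟩ := hc s hs
    have hen : In (UU u) s ≤ E0 := energy_le hν.le h h0 hs.1 hs.2
    have k1 := deriv_high hδ0 (sub_pos.1 hνδ0) h (hsub hs) hl hn hK hen hw hκ hb hcr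
    set y := In (SS u) s with hy
    have hy0 : 0 ≤ y := In_SS_nonneg u s
    set L := Real.log (Real.exp 1 + y) with hL
    have hE : 0 < Real.exp 1 := Real.exp_pos 1
    have hL0 : 0 ≤ L := Real.log_nonneg (by
      have := Real.add_one_le_exp (1 : ℝ)
      linarith)
    have hbs : 0 < b - s := sub_pos.2 hs.2
    have hgs := hg0 s hs
    have k2 : m ^ 2 / (2 * (ν - δ)) + 2 * n ≤ ρ * (θ / (b - s) + g s * L) := by
      have e1 : m ^ 2 / (2 * (ν - δ)) = ρ * (m ^ 2 / (2 * ν)) := by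
        rw [hνδ, hρ]
        field_simp
      rw [e1]
      have e2 := mul_le_mul_of_nonneg_left hmn (zero_le_one.trans hρ1)
      have e3 : 2 * n ≤ ρ * (2 * n) := le_mul_of_one_le_left (by positivity) hρ1
      linarith
    have k3 : (3 * (1 + K) ^ 2 * |Ω|) ^ 2 * (1 / (2 * δ) + 2) * (1 + E0)
        ≤ C0 * (g s * ((Real.exp 1 + y) * L)) := by
      have e1 : (3 * (1 + K) ^ 2 * |Ω|) ^ 2 * (1 / (2 * δ) + 2) * (1 + E0)
          = C0 * ((1 + K) ^ 4 * Ω ^ 2) := by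
        rw [hC0, mul_pow, sq_abs]
        ring
      rw [e1]
      exact mul_le_mul_of_nonneg_left hΩ hC00
    have k4 : (m ^ 2 / (2 * (ν - δ)) + 2 * n) * y
        ≤ ρ * (θ / (b - s) + g s * L) * (Real.exp 1 + y) := by
      have e1 : 0 ≤ ρ * (θ / (b - s) + g s * L) := by positivity
      calc (m ^ 2 / (2 * (ν - δ)) + 2 * n) * y ≤ ρ * (θ / (b - s) + g s * L) * y :=
            mul_le_mul_of_nonneg_right k2 hy0
        _ ≤ ρ * (θ / (b - s) + g s * L) * (Real.exp 1 + y) :=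
            mul_le_mul_of_nonneg_left (by linarith) e1
    calc -(2 * ν) * In (GG u) s + 2 * In (stretch u) s
        ≤ (m ^ 2 / (2 * (ν - δ)) + 2 * n) * y
          + (3 * (1 + K) ^ 2 * |Ω|) ^ 2 * (1 / (2 * δ) + 2) * (1 + E0) := k1
      _ ≤ ρ * (θ / (b - s) + g s * L) * (Real.exp 1 + y)
          + C0 * (g s * ((Real.exp 1 + y) * L)) := add_le_add k4 k3
      _ = (ρ * θ / (b - s) + (ρ + C0) * g s * L) * (Real.exp 1 + y) := by ring
  · intro s hs
    rw [hd2 s hs]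
    have k1 := stretch_int hν hgd h.div_free (hsub hs)
    set y := In (SS u) s with hy
    have hy0 : 0 ≤ y := In_SS_nonneg u s
    have k2 : y ≤ (1 + y) ^ 3 := by nlinarith [mul_nonneg hy0 hy0, mul_nonneg hy0 (mul_nonneg hy0 hy0)]
    have k3 : y ^ 3 ≤ (1 + y) ^ 3 := pow_le_pow_left₀ hy0 (by linarith) 3
    have k4 : ν / 8 * y ≤ ν / 8 * (1 + y) ^ 3 := mul_le_mul_of_nonneg_left k2 (by positivity)
    have k5 : 65536 / ν ^ 3 * y ^ 3 ≤ 65536 / ν ^ 3 * (1 + y) ^ 3 :=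
      mul_le_mul_of_nonneg_left k3 (by positivity)
    rw [hK0]
    linarith

end H319NS
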